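import Mathlib
import Pool.Graph.R_seed8.H373R2.T7.Sys6

/-!
# Prime values of `F_i(n) + a_i` at the elements of arbitrary sets: definitions, partial summation
-/

set_option autoImplicit false

namespace Pool.Agent.H27.AS
open Finset Polynomial Pool.Agent.H373R2.T7

variable {k : ℕ}

/-- the values `F_i(n) + a_i` -/
def val (F : Fin k → ℤ[X]) (a : Fin k → ℕ) (i : Fin k) (n : ℕ) : ℤ := (F i).eval (n : ℤ) + a i

lemma vl_eq (F : Fin k → ℤ[X]) (a : Fin k → ℕ) (i : Fin k) (n : ℕ) : vl F (fun _ => 1) a i n = val F a i n := by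
  unfold vl val; ring

/-- the primes up to `z` -/
def primes (z : ℕ) : Finset ℕ := (Icc 1 z).filter Nat.Prime

open Classical in
/-- the number of the `n` in `S` with `u < n ≤ v` for which all `F_i(n) + a_i` are primes -/
noncomputable def count (F : Fin k → ℤ[X]) (a : Fin k → ℕ) (S : Finset ℕ) (u v : ℕ) : ℕ :=
  #((S.filter (fun n => u < n ∧ n ≤ v)).filter (fun n => ∀ i, (val F a i n).toNat.Prime))

open Classical in
/-- the prediction, from the `n` in `S` with `u < n ≤ v` for which no `F_i(n) + a_i` has a prime factor `≤ z` -/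
noncomputable def model (F : Fin k → ℤ[X]) (a : Fin k → ℕ) (z : ℕ) (S : Finset ℕ) (u v : ℕ) : ℝ :=
  ((∏ p ∈ primes z, (1 - 1 / (p : ℝ)))⁻¹) ^ k *
    ∑ n ∈ (S.filter (fun n => u < n ∧ n ≤ v)).filter
      (fun n => ∀ i, 2 ≤ val F a i n ∧ ∀ p ∈ primes z, ¬ (p : ℤ) ∣ val F a i n),
      ∏ i, 1 / Real.log ((val F a i n : ℤ) : ℝ)

/-- the difference of the two at one `n` -/
noncomputable def tm (F : Fin k → ℤ[X]) (a : Fin k → ℕ) (z n : ℕ) : ℝ := by
  classical exact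
  (if ∀ i, (val F a i n).toNat.Prime then (1 : ℝ) else 0) - ((Vz z)⁻¹) ^ k *
    (if ∀ i, 2 ≤ val F a i n ∧ ∀ p ∈ primes z, ¬ (p : ℤ) ∣ val F a i n then
      ∏ i, 1 / Real.log ((val F a i n : ℤ) : ℝ) else 0)

/-- the weighted difference at one `n` -/
noncomputable def cw (F : Fin k → ℤ[X]) (a : Fin k → ℕ) (z n : ℕ) : ℝ :=
  ∏ i, lamP (vl F (fun _ => 1) a i n) - ∏ i, lamzI z (vl F (fun _ => 1) a i n)

lemma count_sub_model (F : Fin k → ℤ[X]) (a : Fin k → ℕ) (z : ℕ) (S : Finset ℕ) (u v : ℕ) :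
    (count F a S u v : ℝ) - model F a z S u v = ∑ n ∈ S.filter (fun n => u < n ∧ n ≤ v), tm F a z n := by
  classical
  unfold count model tm
  rw [sum_sub_distrib, ← mul_sum]
  congr 1
  · rw [← sum_filter, sum_const, nsmul_eq_mul, mul_one]
  · congr 1
    rw [← sum_filter]

lemma tm_eq (F : Fin k → ℤ[X]) (a : Fin k → ℕ) (z n : ℕ) (h : ∀ i, 2 ≤ val F a i n) :
    tm F a z n = cw F a z n * ∏ i, 1 / Real.log ((val F a i n : ℤ) : ℝ) := by
  classical
  have hl : ∀ i, Real.log ((val F a i n : ℤ) : ℝ) ≠ 0 := by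
    intro i
    have h1 : (2 : ℝ) ≤ ((val F a i n : ℤ) : ℝ) := by exact_mod_cast h i
    exact (Real.log_pos (by linarith)).ne'
  unfold tm cw
  rw [sub_mul, prod_lamzI]
  congr 1
  · simp only [vl_eq]
    unfold lamP
    rw [prod_ite_zero]
    simp only [mem_univ, forall_true_left]
    split_ifs with h1
    · rw [← prod_mul_distrib]
      symm
      apply prod_eq_one
      intro i _
      have h2 : (((val F a i n).toNat : ℕ) : ℝ) = ((val F a i n : ℤ) : ℝ) := by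
        have h3 : (((val F a i n).toNat : ℕ) : ℤ) = val F a i n := Int.toNat_of_nonneg (by have := h i; omega)
        exact_mod_cast congrArg (fun t : ℤ => (t : ℝ)) h3
      rw [h2]
      exact mul_one_div_cancel (hl i)
    · rw [zero_mul]
  · have e : (∀ i, 2 ≤ val F a i n ∧ ∀ p ∈ primes z, ¬ (p : ℤ) ∣ val F a i n) ↔
        ((∀ i, 1 ≤ vl F (fun _ => 1) a i n) ∧ ∀ p ∈ pz z, ¬ sysQ F (fun _ => 1) a p n) := by
      unfold sysQ
      simp only [vl_eq]
      constructor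
      · intro h1
        refine ⟨fun i => by have := (h1 i).1; omega, fun p hp => ?_⟩
        rintro ⟨i, hi⟩
        exact (h1 i).2 p hp hi
      · rintro ⟨-, h2⟩ i
        exact ⟨h i, fun p hp hd => h2 p hp ⟨i, hd⟩⟩
    by_cases h1 : ∀ i, 2 ≤ val F a i n ∧ ∀ p ∈ primes z, ¬ (p : ℤ) ∣ val F a i n
    · rw [if_pos h1, if_pos (e.1 h1)]
    · rw [if_neg h1, if_neg (fun h => h1 (e.2 h)), mul_zero, zero_mul]

lemma inv_log_le {v : ℤ} (h : 2 ≤ v) : 1 / Real.log (v : ℝ) ≤ 2 := by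
  have h1 : (2 : ℝ) ≤ (v : ℝ) := by exact_mod_cast h
  have h2 := Real.log_le_log (by norm_num) h1
  have h3 := Real.log_two_gt_d9
  rw [div_le_iff₀ (by linarith)]
  linarith

lemma inv_log_nonneg {v : ℤ} (h : 2 ≤ v) : 0 ≤ 1 / Real.log (v : ℝ) := by
  have h1 : (2 : ℝ) ≤ (v : ℝ) := by exact_mod_cast h
  have h2 := Real.log_pos (show (1 : ℝ) < v by linarith)
  positivity

lemma tm_bound (F : Fin k → ℤ[X]) (a : Fin k → ℕ) (z n : ℕ) : |tm F a z n| ≤ 1 + (2 * (Vz z)⁻¹) ^ k := by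
  classical
  have hV : 0 ≤ (Vz z)⁻¹ := (inv_pos.2 (Vz_pos z)).le
  unfold tm
  refine (abs_sub _ _).trans (add_le_add ?_ ?_)
  · split_ifs <;> simp
  · rw [mul_comm 2 _, mul_pow, abs_mul, abs_of_nonneg (pow_nonneg hV k)]
    apply mul_le_mul_of_nonneg_left _ (pow_nonneg hV k)
    split_ifs with h
    · rw [abs_of_nonneg (prod_nonneg fun i _ => inv_log_nonneg (h i).1)]
      calc ∏ i, 1 / Real.log ((val F a i n : ℤ) : ℝ) ≤ ∏ _i : Fin k, (2 : ℝ) :=
            prod_le_prod (fun i _ => inv_log_nonneg (h i).1) (fun i _ => inv_log_le (h i).1)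
        _ = 2 ^ k := by rw [prod_const, card_univ, Fintype.card_fin]
    · simp

/-- partial summation -/
lemma abel (c g : ℕ → ℝ) (m : ℕ) (T : ℝ) (v : ℕ) (hv : m ≤ v) (hg : ∀ n, m < n → g (n + 1) ≤ g n)
    (hg0 : ∀ n, m < n → 0 ≤ g n) (hc : ∀ y, m ≤ y → y ≤ v → |∑ n ∈ Ioc m y, c n| ≤ T) :
    |∑ n ∈ Ioc m v, c n * g n| ≤ T * g (m + 1) := by
  have hid : ∀ y, m ≤ y → ∑ n ∈ Ioc m y, c n * g n =
      (∑ n ∈ Ioc m y, c n) * g (y + 1) + ∑ n ∈ Ioc m y, (∑ j ∈ Ioc m n, c j) * (g n - g (n + 1)) := by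
    intro y hy
    induction y, hy using Nat.le_induction with
    | base => simp
    | succ y hy ih =>
      rw [sum_Ioc_succ_top hy, sum_Ioc_succ_top hy, sum_Ioc_succ_top hy, ih, sum_Ioc_succ_top hy]
      ring
  have htel : ∀ y, m ≤ y → ∑ n ∈ Ioc m y, (g n - g (n + 1)) = g (m + 1) - g (y + 1) := by
    intro y hy
    induction y, hy using Nat.le_induction with
    | base => simp
    | succ y hy ih =>
      rw [sum_Ioc_succ_top hy, ih]
      ring
  rw [hid v hv]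
  have h1 : |(∑ n ∈ Ioc m v, c n) * g (v + 1)| ≤ T * g (v + 1) := by
    rw [abs_mul, abs_of_nonneg (hg0 (v + 1) (by omega))]
    exact mul_le_mul_of_nonneg_right (hc v hv le_rfl) (hg0 _ (by omega))
  have h2 : |∑ n ∈ Ioc m v, (∑ j ∈ Ioc m n, c j) * (g n - g (n + 1))| ≤ T * (g (m + 1) - g (v + 1)) := by
    rw [← htel v hv, mul_sum]
    refine (abs_sum_le_sum_abs _ _).trans (sum_le_sum fun n hn => ?_)
    rw [mem_Ioc] at hn
    have h3 : 0 ≤ g n - g (n + 1) := by linarith [hg n hn.1]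
    rw [abs_mul, abs_of_nonneg h3]
    exact mul_le_mul_of_nonneg_right (hc n hn.1.le hn.2) h3
  calc _ ≤ T * g (v + 1) + T * (g (m + 1) - g (v + 1)) := (abs_add_le _ _).trans (add_le_add h1 h2)
    _ = _ := by ring

end Pool.Agent.H27.AS
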