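import Mathlib
import Pool.Agent.H27.AS.A

/-!
# The weighted comparison, uniformly over many sets and all initial segments
-/

set_option autoImplicit false

namespace Pool.Agent.H27.AS
open Finset Polynomial Pool.Agent.H373R2.T7

variable {k : ℕ}

/-- partial sums of the weighted difference over `S` -/
noncomputable def ps (F : Fin k → ℤ[X]) (a : Fin k → ℕ) (z : ℕ) (S : Finset ℕ) (y : ℕ) : ℝ :=
  ∑ n ∈ (Icc 1 y).filter (fun n => n ∈ S), cw F a z n

lemma cw_bound (F : Fin k → ℤ[X]) (B x z D : ℕ) (hB : 1 ≤ B) (hx : 2 ≤ x) (A : Fin k → ℕ)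
    (hA : ∀ i, A i ≤ B * x ^ (F i).natDegree) (a : Fin k → ℕ)
    (ha : a ∈ Fintype.piFinset (fun i => Icc 1 (A i))) (hD : ∀ i, (F i).natDegree ≤ D) (L : ℝ)
    (hLx : Real.log x = L) (hL : 1 ≤ L) (hLe : Real.log (cst F B) ≤ L) (hV : (Vz z)⁻¹ ≤ L)
    (n : ℕ) (hn : n ∈ Icc 1 x) : |cw F a z n| ≤ ((D + 2) * L) ^ k := by
  have hxr : (2 : ℝ) ≤ x := by exact_mod_cast hx
  have hx0 : (0 : ℝ) < x := by linarith
  have hL0 : 0 < L := by linarith
  have hcst : 1 ≤ cst F B := by unfold cst; omega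
  have hcstr : (1 : ℝ) ≤ cst F B := by exact_mod_cast hcst
  have hDr : (0 : ℝ) ≤ D := Nat.cast_nonneg _
  have h1 : ∀ i, lamP (vl F (fun _ => 1) a i n) ≤ (D + 2) * L := by
    intro i
    have hx1 : (1 : ℝ) ≤ cst F B * (x : ℝ) ^ (F i).natDegree := by
      have : (1 : ℝ) ≤ (x : ℝ) ^ (F i).natDegree := one_le_pow₀ (by linarith)
      nlinarith
    have hup : ((vl F (fun _ => 1) a i n : ℤ) : ℝ) ≤ cst F B * (x : ℝ) ^ (F i).natDegree := by
      rw [Fintype.mem_piFinset] at ha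
      have h5 := vl_le' F (fun _ => 1) (fun _ => Or.inl rfl) B x i (A i) (hA i) n (a i) hn (ha i)
      have h7 : vl F (fun _ => 1) a i n ≤ ((cst F B * x ^ (F i).natDegree : ℕ) : ℤ) := h5
      have h8 : ((vl F (fun _ => 1) a i n : ℤ) : ℝ) ≤ (((cst F B * x ^ (F i).natDegree : ℕ) : ℤ) : ℝ) := by
        exact_mod_cast h7
      push_cast at h8
      exact h8
    refine (lamP_le _).trans ((lamI_le _ _ hx1 hup).trans ?_)
    rw [Real.log_mul (by linarith) (by positivity), Real.log_pow, hLx]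
    have h6 : ((F i).natDegree : ℝ) * L ≤ D * L := by
      apply mul_le_mul_of_nonneg_right _ hL0.le
      exact_mod_cast hD i
    linarith
  have h2 : ∀ i, lamzI z (vl F (fun _ => 1) a i n) ≤ (D + 2) * L := by
    intro i
    refine (lamzI_le _ _).trans (hV.trans ?_)
    nlinarith
  have h3 : ∏ i, lamP (vl F (fun _ => 1) a i n) ≤ ((D + 2) * L) ^ k := by
    calc _ ≤ ∏ _i : Fin k, (D + 2) * L := prod_le_prod (fun i _ => lamP_nonneg _) (fun i _ => h1 i)
      _ = _ := by rw [prod_const, card_univ, Fintype.card_fin]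
  have h4 : ∏ i, lamzI z (vl F (fun _ => 1) a i n) ≤ ((D + 2) * L) ^ k := by
    calc _ ≤ ∏ _i : Fin k, (D + 2) * L := prod_le_prod (fun i _ => lamzI_nonneg _ _) (fun i _ => h2 i)
      _ = _ := by rw [prod_const, card_univ, Fintype.card_fin]
  have h5 : 0 ≤ ∏ i, lamP (vl F (fun _ => 1) a i n) := prod_nonneg fun i _ => lamP_nonneg _
  have h6 : 0 ≤ ∏ i, lamzI z (vl F (fun _ => 1) a i n) := prod_nonneg fun i _ => lamzI_nonneg _ _
  unfold cw
  rw [abs_le]
  constructor <;> linarith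

lemma ps_split (F : Fin k → ℤ[X]) (a : Fin k → ℕ) (z : ℕ) (S : Finset ℕ) (x y w : ℕ) (hw : w ≤ y) (hy : y ≤ x) :
    ps F a z S y = ∑ n ∈ Icc 1 x, (if n ∈ S ∧ n ≤ w then (1 : ℝ) else 0) * cw F a z n +
      ∑ n ∈ (Ioc w y).filter (fun n => n ∈ S), cw F a z n := by
  classical
  unfold ps
  have e1 : ∑ n ∈ Icc 1 x, (if n ∈ S ∧ n ≤ w then (1 : ℝ) else 0) * cw F a z n =
      ∑ n ∈ (Icc 1 w).filter (fun n => n ∈ S), cw F a z n := by
    have e2 : (Icc 1 w).filter (fun n => n ∈ S) = (Icc 1 x).filter (fun n => n ∈ S ∧ n ≤ w) := by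
      ext n
      simp only [mem_filter, mem_Icc]
      constructor
      · rintro ⟨⟨h1, h2⟩, h3⟩
        exact ⟨⟨h1, by omega⟩, h3, h2⟩
      · rintro ⟨⟨h1, -⟩, h3, h2⟩
        exact ⟨⟨h1, h2⟩, h3⟩
    rw [e2, sum_filter]
    apply sum_congr rfl
    intro n _
    split_ifs <;> simp
  rw [e1, ← sum_union]
  · apply sum_congr _ (fun _ _ => rfl)
    ext n
    simp only [mem_union, mem_filter, mem_Icc, mem_Ioc]
    constructor
    · rintro ⟨⟨h1, h2⟩, h3⟩
      rcases Nat.lt_or_ge w n with h | h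
      · exact Or.inr ⟨⟨h, h2⟩, h3⟩
      · exact Or.inl ⟨⟨h1, h⟩, h3⟩
    · rintro (⟨⟨h1, h2⟩, h3⟩ | ⟨⟨h1, h2⟩, h3⟩)
      · exact ⟨⟨h1, by omega⟩, h3⟩
      · exact ⟨⟨by omega, h2⟩, h3⟩
  · rw [disjoint_left]
    intro n h1 h2
    simp only [mem_filter, mem_Icc, mem_Ioc] at h1 h2
    omega

set_option maxHeartbeats 1000000 in
theorem unif (F : Fin k → ℤ[X]) (hd : ∀ i, 1 ≤ (F i).natDegree) (hl : ∀ i, 0 < (F i).leadingCoeff)
    (B : ℕ) (hB : 1 ≤ B) (K U : ℕ) :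
    ∃ B0 : ℕ, ∀ E : ℕ, ∃ N0 : ℕ, ∀ x : ℕ, N0 ≤ x → ∀ A : Fin k → ℕ,
      (∀ i, A i ≤ B * x ^ (F i).natDegree ∧ x ^ (F i).natDegree ≤ B * A i) →
      ∀ z : ℕ, Real.log x ^ B0 ≤ z → (z : ℝ) ≤ Real.log x ^ E →
      ∀ 𝒮 : Finset (Finset ℕ), (#𝒮 : ℝ) ≤ Real.log x ^ K →
      ∃ Bad ⊆ Fintype.piFinset (fun i => Icc 1 (A i)), (#Bad : ℝ) ≤ (∏ i, (A i : ℝ)) / Real.log x ^ U ∧
        ∀ a ∈ Fintype.piFinset (fun i => Icc 1 (A i)), a ∉ Bad → ∀ S ∈ 𝒮, ∀ y : ℕ, y ≤ x →
          |ps F a z S y| ≤ x / Real.log x ^ U := by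
  classical
  obtain ⟨D, hD⟩ : ∃ D : ℕ, D = univ.sup (fun i => (F i).natDegree) := ⟨_, rfl⟩
  have hDd : ∀ i, (F i).natDegree ≤ D := fun i => by rw [hD]; exact le_sup (f := fun i => (F i).natDegree) (mem_univ i)
  obtain ⟨W, hW⟩ : ∃ W : ℕ, W = U + k + 2 := ⟨_, rfl⟩
  obtain ⟨B0, hB0⟩ := sys_diffP F hd hl (fun _ => 1) (fun _ => Or.inl rfl) B hB ((U + 1) + (U + K + W + 2))
  refine ⟨B0, fun E => ?_⟩
  obtain ⟨n1, h1⟩ := hB0 E
  obtain ⟨n2, h2⟩ := ev_L' (Real.log (cst F B))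
  obtain ⟨n3, h3⟩ := ev_L' (3 * (D + 2) ^ k)
  obtain ⟨n4, h4⟩ := Vz_inv_small E
  obtain ⟨n5, h5⟩ := ev_log' (k + U) (3 * (D + 2) ^ k)
  refine ⟨n1 + n2 + n3 + n4 + n5 + 2, fun x hx A hA z hz1 hz2 𝒮 h𝒮 => ?_⟩
  have hS := h1 x (by omega) A hA z hz1 hz2
  have hLe := h2 x (by omega)
  have hL3 := h3 x (by omega)
  have hVz := h4 x (by omega) z
  have a5 := h5 x (by omega)
  have hx2 : 2 ≤ x := by omega
  clear h1 h2 h3 h4 h5 hx hB0
  generalize hLx : Real.log (x : ℝ) = L at *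
  have hx0 : (0 : ℝ) < x := by exact_mod_cast (by omega : 0 < x)
  have hDr : (0 : ℝ) ≤ D := Nat.cast_nonneg _
  have hDk : (1 : ℝ) ≤ (D + 2 : ℝ) ^ k := one_le_pow₀ (by linarith)
  have hL1 : 3 ≤ L := by linarith
  have hL0 : 0 < L := by linarith
  have hz : 1 ≤ z := by
    have : (1 : ℝ) ≤ z := (one_le_pow₀ (by linarith : (1 : ℝ) ≤ L)).trans hz1
    exact_mod_cast this
  have hV := hVz hz hz2
  obtain ⟨M, hM⟩ : ∃ M : ℝ, M = ((D + 2) * L) ^ k := ⟨_, rfl⟩
  have hM0 : 0 ≤ M := by rw [hM]; positivity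
  obtain ⟨H, hH⟩ : ∃ H : ℕ, H = ⌊(x : ℝ) / L ^ W⌋₊ + 1 := ⟨_, rfl⟩
  have hH1 : 0 < H := by omega
  have hHlow : (x : ℝ) / L ^ W ≤ H := by
    rw [hH]
    push_cast
    exact (Nat.lt_floor_add_one _).le
  have hHup : (H : ℝ) ≤ x / L ^ W + 1 := by
    rw [hH]
    push_cast
    linarith [Nat.floor_le (show 0 ≤ (x : ℝ) / L ^ W by positivity)]
  obtain ⟨box, hbox⟩ : ∃ box : Finset (Fin k → ℕ), box = Fintype.piFinset (fun i => Icc 1 (A i)) := ⟨_, rfl⟩
  rw [← hbox] at hS ⊢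
  have hprod : 0 ≤ ∏ i, (A i : ℝ) := prod_nonneg fun _ _ => Nat.cast_nonneg _
  obtain ⟨fa, hfa⟩ : ∃ fa : (Finset ℕ × ℕ) → (Fin k → ℕ) → ℝ, fa = fun q a =>
    |∑ n ∈ Icc 1 x, (if n ∈ q.1 ∧ n ≤ q.2 * H then (1 : ℝ) else 0) * cw F a z n| := ⟨_, rfl⟩
  obtain ⟨P, hP⟩ : ∃ P : Finset (Finset ℕ × ℕ), P = 𝒮 ×ˢ range (x / H + 1) := ⟨_, rfl⟩
  have hmk : ∀ q : Finset ℕ × ℕ, ((box.filter (fun a => (x : ℝ) / L ^ (U + 1) < fa q a)).card : ℝ) ≤
      (∏ i, (A i : ℝ)) / L ^ (U + K + W + 2) := by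
    intro q
    apply markov _ (fa q) (fun a _ => by rw [hfa]; exact abs_nonneg _) _ _ (by positivity)
    have h6 := hS (fun n => if n ∈ q.1 ∧ n ≤ q.2 * H then (1 : ℝ) else 0) (fun n _ => by
      split_ifs
      · rw [abs_one]; linarith
      · rw [abs_zero]; linarith)
    rw [hfa]
    refine h6.trans (le_of_eq ?_)
    rw [pow_add L (U + 1) (U + K + W + 2)]
    field_simp
  have hPc : (#P : ℝ) ≤ L ^ K * (2 * L ^ W) := by
    rw [hP, card_product, card_range]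
    push_cast
    apply mul_le_mul h𝒮 _ (by positivity) (by positivity)
    have h7 : ((x / H : ℕ) : ℝ) ≤ L ^ W := by
      refine Nat.cast_div_le.trans ?_
      rw [div_le_iff₀ (by exact_mod_cast hH1)]
      rw [div_le_iff₀ (by positivity)] at hHlow
      linarith
    have h8 : 1 ≤ L ^ W := one_le_pow₀ (by linarith)
    linarith
  refine ⟨P.biUnion (fun q => box.filter (fun a => (x : ℝ) / L ^ (U + 1) < fa q a)), ?_, ?_, ?_⟩
  · intro a ha
    rw [mem_biUnion] at ha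
    obtain ⟨q, -, hq⟩ := ha
    exact (mem_filter.1 hq).1
  · have h9 : (#(P.biUnion (fun q => box.filter (fun a => (x : ℝ) / L ^ (U + 1) < fa q a))) : ℝ) ≤
        ∑ q ∈ P, ((box.filter (fun a => (x : ℝ) / L ^ (U + 1) < fa q a)).card : ℝ) := by
      exact_mod_cast card_biUnion_le
    refine h9.trans ((sum_le_sum fun q _ => hmk q).trans ?_)
    rw [sum_const, nsmul_eq_mul]
    have h10 : (L ^ K * (2 * L ^ W)) * ((∏ i, (A i : ℝ)) / L ^ (U + K + W + 2)) =
        (2 / L ^ 2) * ((∏ i, (A i : ℝ)) / L ^ U) := by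
      rw [show U + K + W + 2 = K + W + (2 + U) by ring, pow_add L (K + W), pow_add L K, pow_add L 2]
      field_simp
    refine (mul_le_mul_of_nonneg_right hPc (by positivity)).trans ?_
    rw [h10]
    calc (2 / L ^ 2) * ((∏ i, (A i : ℝ)) / L ^ U) ≤ 1 * ((∏ i, (A i : ℝ)) / L ^ U) := by
          apply mul_le_mul_of_nonneg_right _ (by positivity)
          rw [div_le_one (by positivity)]
          nlinarith
      _ = _ := one_mul _
  · intro a ha haB S hS' y hy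
    have hq : (S, y / H) ∈ P := by
      rw [hP, mem_product, mem_range]
      exact ⟨hS', Nat.lt_succ_of_le (Nat.div_le_div_right hy)⟩
    have h11 : fa (S, y / H) a ≤ x / L ^ (U + 1) := by
      by_contra hc
      push Not at hc
      apply haB
      rw [mem_biUnion]
      exact ⟨_, hq, mem_filter.2 ⟨ha, hc⟩⟩
    have hw : y / H * H ≤ y := Nat.div_mul_le_self y H
    have hw2 : y - y / H * H ≤ H := by
      have := Nat.div_add_mod y H
      have h12 := Nat.mod_lt y hH1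
      have h13 : H * (y / H) = y / H * H := mul_comm _ _
      omega
    rw [ps_split F a z S x y (y / H * H) hw hy]
    rw [hfa] at h11
    simp only at h11
    have h14 : |∑ n ∈ (Ioc (y / H * H) y).filter (fun n => n ∈ S), cw F a z n| ≤ (x / L ^ W + 1) * M := by
      refine (abs_sum_le_sum_abs _ _).trans ?_
      calc ∑ n ∈ (Ioc (y / H * H) y).filter (fun n => n ∈ S), |cw F a z n| ≤
          ∑ _n ∈ (Ioc (y / H * H) y).filter (fun n => n ∈ S), M := by
            apply sum_le_sum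
            intro n hn
            rw [mem_filter, mem_Ioc] at hn
            rw [hM]
            refine cw_bound F B x z D hB hx2 A (fun i => (hA i).1) a (by rw [← hbox]; exact ha) hDd L hLx
              (by linarith) hLe hV n ?_
            rw [mem_Icc]
            omega
        _ = ((#((Ioc (y / H * H) y).filter (fun n => n ∈ S)) : ℕ) : ℝ) * M := by rw [sum_const, nsmul_eq_mul]
        _ ≤ (x / L ^ W + 1) * M := by
            apply mul_le_mul_of_nonneg_right _ hM0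
            refine le_trans ?_ hHup
            have h15 : #((Ioc (y / H * H) y).filter (fun n => n ∈ S)) ≤ H := by
              refine (card_filter_le _ _).trans ?_
              rw [Nat.card_Ioc]
              exact hw2
            exact_mod_cast h15
    refine (abs_add_le _ _).trans ((add_le_add h11 h14).trans ?_)
    -- numbers
    have e1 : (x : ℝ) / L ^ (U + 1) ≤ (1 / 3) * (x / L ^ U) := by
      rw [pow_succ, ← div_div, div_eq_mul_one_div ((x : ℝ) / L ^ U) L, mul_comm]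
      apply mul_le_mul_of_nonneg_right _ (by positivity)
      exact one_div_le_one_div_of_le (by norm_num) hL1
    have e2 : (x : ℝ) / L ^ W * M ≤ (1 / 3) * (x / L ^ U) := by
      have h16 : (x : ℝ) / L ^ W * M = ((D + 2) ^ k / L ^ 2) * (x / L ^ U) := by
        rw [hM, hW, mul_pow, show U + k + 2 = U + (k + 2) by ring, pow_add L U, pow_add L k]
        field_simp
      rw [h16]
      apply mul_le_mul_of_nonneg_right _ (by positivity)
      rw [div_le_div_iff₀ (by positivity) (by norm_num)]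
      nlinarith
    have e3 : M ≤ (1 / 3) * (x / L ^ U) := by
      rw [mul_div_assoc', le_div_iff₀ (by positivity), hM, mul_pow]
      have h17 : √(x : ℝ) ≤ x := by
        rw [Real.sqrt_le_left hx0.le]
        have : (1 : ℝ) ≤ x := by exact_mod_cast (by omega : 1 ≤ x)
        nlinarith
      have h18 := a5.trans h17
      rw [pow_add] at h18
      linarith
    calc x / L ^ (U + 1) + (x / L ^ W + 1) * M = x / L ^ (U + 1) + x / L ^ W * M + M := by ring
      _ ≤ (1 / 3) * (x / L ^ U) + (1 / 3) * (x / L ^ U) + (1 / 3) * (x / L ^ U) := by linarith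
      _ = x / L ^ U := by ring

end Pool.Agent.H27.AS
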