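import Mathlib
import Pool.Agent.H27.AS.B

/-!
# The unweighted comparison in all windows
-/

set_option autoImplicit false

namespace Pool.Agent.H27.AS
open Finset Polynomial Pool.Agent.H373R2.T7

variable {k : ℕ}

lemma ev_two (f : ℤ[X]) (hd : 1 ≤ f.natDegree) (hl : 0 < f.leadingCoeff) :
    ∃ n0 : ℕ, (∀ n : ℕ, n0 ≤ n → 1 ≤ f.eval (n : ℤ)) ∧ ∀ n m : ℕ, n0 ≤ n → n ≤ m → f.eval (n : ℤ) ≤ f.eval (m : ℤ) := by
  have h1 : (f - C 1).natDegree = f.natDegree := natDegree_sub_C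
  have h2 : (f - C 1).leadingCoeff = f.leadingCoeff := by
    unfold leadingCoeff
    rw [h1, coeff_sub, coeff_C, if_neg (by omega), sub_zero]
  obtain ⟨n0, h3, h4⟩ := ev_mono (f - C 1) (by rw [h1]; exact hd) (by rw [h2]; exact hl)
  refine ⟨n0, fun n hn => ?_, fun n m hn hm => ?_⟩
  · have := h3 n hn
    rw [eval_sub, eval_C] at this
    omega
  · have := h4 n m hn hm
    simp only [eval_sub, eval_C] at this
    omega

lemma ps_ioc (F : Fin k → ℤ[X]) (a : Fin k → ℕ) (z : ℕ) (S : Finset ℕ) (m y : ℕ) (h : m ≤ y) :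
    ∑ n ∈ Ioc m y, (if n ∈ S then cw F a z n else 0) = ps F a z S y - ps F a z S m := by
  have e : ∀ y, ps F a z S y = ∑ n ∈ Ioc 0 y, (if n ∈ S then cw F a z n else 0) := by
    intro y
    unfold ps
    rw [sum_filter]
    rfl
  rw [e, e, ← sum_Ioc_consecutive _ (Nat.zero_le m) h]
  ring

lemma window (F : Fin k → ℤ[X]) (a : Fin k → ℕ) (z x n0 : ℕ) (S : Finset ℕ) (T L : ℝ)
    (hn0 : ∀ n : ℕ, n0 ≤ n → ∀ i, 1 ≤ (F i).eval (n : ℤ))
    (hmono : ∀ n m : ℕ, n0 ≤ n → n ≤ m → ∀ i, (F i).eval (n : ℤ) ≤ (F i).eval (m : ℤ))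
    (ha : ∀ i, 1 ≤ a i) (hT : 0 ≤ T) (hVL : (Vz z)⁻¹ ≤ L) (hps : ∀ y : ℕ, y ≤ x → |ps F a z S y| ≤ T) (u v : ℕ) (hv : v ≤ x) :
    |(count F a S u v : ℝ) - model F a z S u v| ≤ n0 * (1 + (2 * L) ^ k) + 2 * T * 2 ^ k := by
  classical
  rw [count_sub_model]
  have hV0 : 0 ≤ (Vz z)⁻¹ := (inv_pos.2 (Vz_pos z)).le
  have hval : ∀ n : ℕ, n0 ≤ n → ∀ i, 2 ≤ val F a i n := by
    intro n hn i
    unfold val
    have h1 := hn0 n hn i
    have h2 : (1 : ℤ) ≤ a i := by exact_mod_cast ha i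
    omega
  have hsplit : S.filter (fun n => u < n ∧ n ≤ v) ⊆
      (S.filter (fun n => u < n ∧ n ≤ v ∧ n ≤ n0)) ∪ ((Ioc (max u n0) v).filter (fun n => n ∈ S)) := by
    intro n hn
    rw [mem_filter] at hn
    rw [mem_union, mem_filter, mem_filter, mem_Ioc]
    rcases Nat.lt_or_ge n0 n with h | h
    · exact Or.inr ⟨⟨by omega, hn.2.2⟩, hn.1⟩
    · exact Or.inl ⟨hn.1, hn.2.1, hn.2.2, h⟩
  have heq : S.filter (fun n => u < n ∧ n ≤ v) =
      (S.filter (fun n => u < n ∧ n ≤ v ∧ n ≤ n0)) ∪ ((Ioc (max u n0) v).filter (fun n => n ∈ S)) := by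
    apply subset_antisymm hsplit
    intro n hn
    rw [mem_union, mem_filter, mem_filter, mem_Ioc] at hn
    rw [mem_filter]
    rcases hn with ⟨h1, h2, h3, -⟩ | ⟨⟨h1, h2⟩, h3⟩
    · exact ⟨h1, h2, h3⟩
    · exact ⟨h3, by omega, h2⟩
  rw [heq, sum_union (by
    rw [disjoint_left]
    intro n h1 h2
    rw [mem_filter] at h1
    rw [mem_filter, mem_Ioc] at h2
    omega)]
  refine (abs_add_le _ _).trans (add_le_add ?_ ?_)
  · refine (abs_sum_le_sum_abs _ _).trans ?_
    calc ∑ n ∈ S.filter (fun n => u < n ∧ n ≤ v ∧ n ≤ n0), |tm F a z n| ≤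
        ∑ _n ∈ S.filter (fun n => u < n ∧ n ≤ v ∧ n ≤ n0), (1 + (2 * L) ^ k) := by
          apply sum_le_sum
          intro n _
          refine (tm_bound F a z n).trans ?_
          have := pow_le_pow_left₀ (by positivity : 0 ≤ 2 * (Vz z)⁻¹) (by linarith : 2 * (Vz z)⁻¹ ≤ 2 * L) k
          linarith
      _ = ((#(S.filter (fun n => u < n ∧ n ≤ v ∧ n ≤ n0)) : ℕ) : ℝ) * (1 + (2 * L) ^ k) := by
          rw [sum_const, nsmul_eq_mul]
      _ ≤ _ := by
          have hL : 0 ≤ L := hV0.trans hVL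
          apply mul_le_mul_of_nonneg_right _ (by positivity)
          have h5 : #(S.filter (fun n => u < n ∧ n ≤ v ∧ n ≤ n0)) ≤ n0 := by
            calc _ ≤ #(Icc 1 n0) := by
                  apply card_le_card
                  intro n hn
                  rw [mem_filter] at hn
                  rw [mem_Icc]
                  omega
              _ = n0 := by rw [Nat.card_Icc]; omega
          exact_mod_cast h5
  · rcases Nat.lt_or_ge v (max u n0) with hlt | hge
    · rw [Ioc_eq_empty (by omega), filter_empty, sum_empty, abs_zero]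
      positivity
    · have e1 : ∑ n ∈ (Ioc (max u n0) v).filter (fun n => n ∈ S), tm F a z n =
          ∑ n ∈ Ioc (max u n0) v, (if n ∈ S then cw F a z n else 0) * ∏ i, 1 / Real.log ((val F a i n : ℤ) : ℝ) := by
        rw [sum_filter]
        apply sum_congr rfl
        intro n hn
        rw [mem_Ioc] at hn
        split_ifs with h
        · rw [tm_eq F a z n (hval n (by omega))]
        · rw [zero_mul]
      rw [e1]
      have hg0 : ∀ n, max u n0 < n → 0 ≤ ∏ i, 1 / Real.log ((val F a i n : ℤ) : ℝ) := by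
        intro n hn
        exact prod_nonneg fun i _ => inv_log_nonneg (hval n (by omega) i)
      refine (abel _ (fun n => ∏ i, 1 / Real.log ((val F a i n : ℤ) : ℝ)) (max u n0) (2 * T) v hge ?_ hg0 ?_).trans ?_
      · intro n hn
        apply prod_le_prod
        · intro i _
          exact inv_log_nonneg (hval (n + 1) (by omega) i)
        · intro i _
          have h6 := hval n (by omega) i
          have h7 : val F a i n ≤ val F a i (n + 1) := by
            have := hmono n (n + 1) (by omega) (by omega) i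
            unfold val
            omega
          have h8 : (2 : ℝ) ≤ ((val F a i n : ℤ) : ℝ) := by exact_mod_cast h6
          have h9 : ((val F a i n : ℤ) : ℝ) ≤ ((val F a i (n + 1) : ℤ) : ℝ) := by exact_mod_cast h7
          exact one_div_le_one_div_of_le (Real.log_pos (by linarith)) (Real.log_le_log (by linarith) h9)
      · intro y hy1 hy2
        rw [ps_ioc F a z S _ y hy1]
        refine (abs_sub _ _).trans ?_
        have := hps y (by omega)
        have := hps (max u n0) (by omega)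
        linarith
      · apply mul_le_mul_of_nonneg_left _ (by linarith)
        calc ∏ i, 1 / Real.log ((val F a i (max u n0 + 1) : ℤ) : ℝ) ≤ ∏ _i : Fin k, (2 : ℝ) :=
              prod_le_prod (fun i _ => inv_log_nonneg (hval _ (by omega) i)) (fun i _ => inv_log_le (hval _ (by omega) i))
          _ = 2 ^ k := by rw [prod_const, card_univ, Fintype.card_fin]

/-- **Arbitrary sets.** -/
theorem part1 (F : Fin k → ℤ[X]) (hd : ∀ i, 1 ≤ (F i).natDegree) (hl : ∀ i, 0 < (F i).leadingCoeff)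
    (B : ℕ) (hB : 1 ≤ B) (K U : ℕ) :
    ∃ B0 : ℕ, ∀ E : ℕ, ∃ N0 : ℕ, ∀ x : ℕ, N0 ≤ x → ∀ A : Fin k → ℕ,
      (∀ i, A i ≤ B * x ^ (F i).natDegree ∧ x ^ (F i).natDegree ≤ B * A i) →
      ∀ z : ℕ, Real.log x ^ B0 ≤ z → (z : ℝ) ≤ Real.log x ^ E →
      ∀ 𝒮 : Finset (Finset ℕ), (#𝒮 : ℝ) ≤ Real.log x ^ K →
      ∃ Bad ⊆ Fintype.piFinset (fun i => Icc 1 (A i)), (#Bad : ℝ) ≤ (∏ i, (A i : ℝ)) / Real.log x ^ U ∧
        ∀ a ∈ Fintype.piFinset (fun i => Icc 1 (A i)), a ∉ Bad → ∀ S ∈ 𝒮, ∀ u v : ℕ, v ≤ x →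
          |(count F a S u v : ℝ) - model F a z S u v| ≤ x / Real.log x ^ U := by
  classical
  choose m0 hm1 hm2 using fun i => ev_two (F i) (hd i) (hl i)
  obtain ⟨n0, hn0⟩ : ∃ n0 : ℕ, n0 = univ.sup m0 := ⟨_, rfl⟩
  have hle : ∀ i, m0 i ≤ n0 := fun i => by rw [hn0]; exact le_sup (f := m0) (mem_univ i)
  obtain ⟨B0, hB0⟩ := unif F hd hl B hB K (U + 1)
  refine ⟨B0, fun E => ?_⟩
  obtain ⟨n1, h1⟩ := hB0 E
  obtain ⟨n2, h2⟩ := ev_L' (2 ^ (k + 2))
  obtain ⟨n3, h3⟩ := Vz_inv_small E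
  obtain ⟨n4, h4⟩ := ev_log' (k + U) (4 * n0 * 2 ^ k)
  refine ⟨n1 + n2 + n3 + n4 + 2, fun x hx A hA z hz1 hz2 𝒮 h𝒮 => ?_⟩
  obtain ⟨Bad, hb1, hb2, hb3⟩ := h1 x (by omega) A hA z hz1 hz2 𝒮 h𝒮
  have hL2 := h2 x (by omega)
  have hVz := h3 x (by omega) z
  have a4 := h4 x (by omega)
  have hx2 : 2 ≤ x := by omega
  clear h1 h2 h3 h4 hx hB0
  generalize hLx : Real.log (x : ℝ) = L at *
  have hx0 : (0 : ℝ) < x := by exact_mod_cast (by omega : 0 < x)
  have hk2 : (1 : ℝ) ≤ 2 ^ (k + 1) := one_le_pow₀ (by norm_num)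
  have hL4 : 2 ≤ L := by
    rw [show k + 2 = (k + 1) + 1 by ring, pow_succ] at hL2
    linarith
  have hL0 : 0 < L := by linarith
  have hz : 1 ≤ z := by
    have : (1 : ℝ) ≤ z := (one_le_pow₀ (by linarith : (1 : ℝ) ≤ L)).trans hz1
    exact_mod_cast this
  have hV := hVz hz hz2
  refine ⟨Bad, hb1, ?_, fun a ha haB S hS u v hv => ?_⟩
  · refine hb2.trans ?_
    apply div_le_div_of_nonneg_left (prod_nonneg fun _ _ => Nat.cast_nonneg _) (by positivity)
    exact pow_le_pow_right₀ (by linarith) (by omega)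
  · have ha1 : ∀ i, 1 ≤ a i := fun i => (mem_Icc.1 (Fintype.mem_piFinset.1 ha i)).1
    refine (window F a z x n0 S (x / L ^ (U + 1)) L (fun n hn i => hm1 i n ((hle i).trans hn))
      (fun n m hn hm i => hm2 i n m ((hle i).trans hn) hm) ha1 (by positivity) hV (hb3 a ha haB S hS) u v hv).trans ?_
    have e1 : 2 * ((x : ℝ) / L ^ (U + 1)) * 2 ^ k ≤ (1 / 2) * (x / L ^ U) := by
      have e2 : 2 * ((x : ℝ) / L ^ (U + 1)) * 2 ^ k = (2 ^ (k + 1) / L) * (x / L ^ U) := by
        rw [pow_succ L U, pow_succ (2 : ℝ) k]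
        field_simp
      rw [e2]
      apply mul_le_mul_of_nonneg_right _ (by positivity)
      rw [div_le_div_iff₀ hL0 (by norm_num)]
      rw [show k + 2 = (k + 1) + 1 by ring, pow_succ] at hL2
      linarith
    have e3 : (n0 : ℝ) * (1 + (2 * L) ^ k) ≤ (1 / 2) * (x / L ^ U) := by
      rw [mul_div_assoc', le_div_iff₀ (by positivity)]
      have h17 : √(x : ℝ) ≤ x := by
        rw [Real.sqrt_le_left hx0.le]
        have : (1 : ℝ) ≤ x := by exact_mod_cast (by omega : 1 ≤ x)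
        nlinarith
      have h18 := a4.trans h17
      have h19 : (1 : ℝ) ≤ (2 * L) ^ k := one_le_pow₀ (by linarith)
      have h20 : (0 : ℝ) ≤ n0 := Nat.cast_nonneg _
      calc (n0 : ℝ) * (1 + (2 * L) ^ k) * L ^ U ≤ n0 * (2 * (2 * L) ^ k) * L ^ U := by
            apply mul_le_mul_of_nonneg_right _ (by positivity)
            apply mul_le_mul_of_nonneg_left _ h20
            linarith
        _ = (1 / 2) * (4 * n0 * 2 ^ k * L ^ (k + U)) := by
            rw [mul_pow, pow_add]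
            ring
        _ ≤ (1 / 2) * x := by linarith
    linarith

end Pool.Agent.H27.AS
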