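import Mathlib
import Pool.Agent.H27.AS.C
import Pool.Graph.R_seed8.H692R2.USS.T1

/-!
# Common small prime factors of `F(p) - m` on average over the primes `p`
-/

set_option autoImplicit false

namespace Pool.Agent.H27.AS
open Finset Polynomial Pool.Agent.H373R2.T7

/-- the primes in `(w, z]` -/
def lz (w z : ℕ) : Finset ℕ := (pz z).filter (fun l => w < l)

/-- the number of the primes `p ≤ x` with `l ∣ f(p) - m` for all `l ∈ T` -/
noncomputable def NT (f : ℤ[X]) (m : ℤ) (x : ℕ) (T : Finset ℕ) : ℕ := by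
  classical exact #((pz x).filter (fun p : ℕ => ∀ l ∈ T, (l : ℤ) ∣ f.eval (p : ℤ) - m))

/-- bound for the number of the classes -/
def cc (f : ℤ[X]) : ℕ := f.natDegree + f.leadingCoeff.natAbs

lemma classes (f : ℤ[X]) (hd : 1 ≤ f.natDegree) (m : ℤ) (l : ℕ) (hl : l.Prime) :
    #((range l).filter (fun r : ℕ => (l : ℤ) ∣ f.eval (r : ℤ) - m)) ≤ cc f := by
  unfold cc
  by_cases h : (l : ℤ) ∣ f.leadingCoeff
  · have h0 : f.leadingCoeff ≠ 0 := by
      rw [Ne, leadingCoeff_eq_zero]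
      rintro rfl
      simp at hd
    have h1 : l ≤ f.leadingCoeff.natAbs := by
      have h2 := Int.natAbs_dvd_natAbs.2 h
      rw [Int.natAbs_natCast] at h2
      exact Nat.le_of_dvd (Int.natAbs_pos.2 h0) h2
    refine (card_filter_le _ _).trans ?_
    rw [card_range]
    omega
  · have h1 := roots_le (f - C m) l hl f.natDegree (by rw [natDegree_sub_C]) (by
      rw [coeff_sub, coeff_C, if_neg (by omega), sub_zero]
      exact h)
    simp only [eval_sub, eval_C] at h1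
    omega

lemma per (f : ℤ[X]) (m : ℤ) (l n : ℕ) : ((l : ℤ) ∣ f.eval ((n % l : ℕ) : ℤ) - m) ↔ (l : ℤ) ∣ f.eval (n : ℤ) - m := by
  have h1 : (l : ℤ) ∣ f.eval (n : ℤ) - f.eval ((n % l : ℕ) : ℤ) := by
    refine dvd_trans ?_ (sub_dvd_eval_sub (n : ℤ) ((n % l : ℕ) : ℤ) f)
    push_cast
    exact Int.dvd_self_sub_emod
  have e : f.eval (n : ℤ) - m = (f.eval (n : ℤ) - f.eval ((n % l : ℕ) : ℤ)) + (f.eval ((n % l : ℕ) : ℤ) - m) := by ring
  rw [e]
  exact (Int.dvd_add_right h1).symm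

lemma bt_class (q r x : ℕ) (hq : 1 ≤ q) (hqx : q * q ≤ x) (hx : 4 ≤ x) :
    (#((pz x).filter (fun p => p % q = r)) : ℝ) ≤ 88 * x / (Nat.totient q * Real.log x) := by
  have hqle : q ≤ x := (Nat.le_mul_self q).trans hqx
  have hN2 : 2 ≤ x / q + 1 := by
    have := (Nat.one_le_div_iff (by omega : 0 < q)).2 hqle
    omega
  have h1 : #((pz x).filter (fun p => p % q = r)) ≤ #((range (x / q + 1)).filter (fun k => (r + k * q).Prime)) := by
    apply card_le_card_of_injOn (fun p => p / q)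
    · intro p hp
      rw [mem_coe, mem_filter, mem_pz] at hp
      rw [mem_coe, mem_filter, mem_range]
      refine ⟨Nat.lt_succ_of_le (Nat.div_le_div_right hp.1.1), ?_⟩
      have h2 := Nat.mod_add_div p q
      rw [hp.2, mul_comm] at h2
      rw [h2]
      exact hp.1.2
    · intro p hp p' hp' h
      rw [mem_coe, mem_filter] at hp hp'
      have h2 := Nat.mod_add_div p q
      have h3 := Nat.mod_add_div p' q
      simp only at h
      rw [hp.2, h] at h2
      rw [hp'.2] at h3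
      omega
  have hbt := Pool.Agent.H692R2.USS.t1_brun_titchmarsh r q (x / q + 1) hN2 hq
  have h1' : (#((pz x).filter (fun p => p % q = r)) : ℝ) ≤ (#((range (x / q + 1)).filter (fun k => (r + k * q).Prime)) : ℝ) := by
    exact_mod_cast h1
  refine (h1'.trans hbt).trans ?_
  have hq0 : (0 : ℝ) < q := by exact_mod_cast hq
  have hx0 : (0 : ℝ) < x := by exact_mod_cast (by omega : 0 < x)
  have hφ : (0 : ℝ) < Nat.totient q := by exact_mod_cast Nat.totient_pos.2 hq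
  have hL : 0 < Real.log x := Real.log_pos (by exact_mod_cast (by omega : 1 < x))
  have hN : (((x / q + 1 : ℕ) : ℕ) : ℝ) ≤ 2 * x / q := by
    push_cast
    have h4 : ((x / q : ℕ) : ℝ) ≤ x / q := Nat.cast_div_le
    have h5 : (1 : ℝ) ≤ x / q := by
      rw [le_div_iff₀ hq0, one_mul]
      exact_mod_cast hqle
    have h6 : 2 * (x : ℝ) / q = x / q + x / q := by ring
    linarith
  have hlog : Real.log x / 2 ≤ Real.log ((x / q + 1 : ℕ) : ℝ) := by
    have h4 : √(x : ℝ) ≤ ((x / q + 1 : ℕ) : ℝ) := by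
      have h5 : (x : ℝ) / q ≤ ((x / q + 1 : ℕ) : ℝ) := by
        have h6 : x < (x / q + 1) * q := by
          have := Nat.lt_div_mul_add (a := x) (by omega : 0 < q)
          linarith [this, (by ring : (x / q + 1) * q = x / q * q + q)]
        rw [div_le_iff₀ hq0]
        exact_mod_cast h6.le
      refine le_trans ?_ h5
      rw [le_div_iff₀ hq0]
      have h7 : (q : ℝ) ≤ √(x : ℝ) := by
        apply Real.le_sqrt_of_sq_le
        rw [pow_two]
        exact_mod_cast hqx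
      calc √(x : ℝ) * q ≤ √(x : ℝ) * √(x : ℝ) := mul_le_mul_of_nonneg_left h7 (Real.sqrt_nonneg _)
        _ = x := Real.mul_self_sqrt hx0.le
    have h8 := Real.log_le_log (Real.sqrt_pos.2 hx0) h4
    rwa [Real.log_sqrt hx0.le] at h8
  calc 22 * ((q : ℝ) / Nat.totient q) * ((x / q + 1 : ℕ) : ℝ) / Real.log ((x / q + 1 : ℕ) : ℝ) ≤
      22 * ((q : ℝ) / Nat.totient q) * (2 * x / q) / (Real.log x / 2) := by
        apply div_le_div₀ (by positivity) _ (by positivity) hlog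
        exact mul_le_mul_of_nonneg_left hN (by positivity)
    _ = 88 * x / (Nat.totient q * Real.log x) := by
        field_simp
        ring

lemma NT_le (f : ℤ[X]) (hd : 1 ≤ f.natDegree) (m : ℤ) (x : ℕ) (hx : 4 ≤ x) (T : Finset ℕ) (hT : ∀ l ∈ T, l.Prime)
    (hq : (∏ l ∈ T, l) * (∏ l ∈ T, l) ≤ x) :
    (NT f m x T : ℝ) ≤ (∏ l ∈ T, ((cc f : ℝ) / ((l : ℝ) - 1))) * (88 * x / Real.log x) := by
  classical
  obtain ⟨q, hqd⟩ : ∃ q : ℕ, q = ∏ l ∈ T, l := ⟨_, rfl⟩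
  have hq1 : 1 ≤ q := by rw [hqd]; exact Nat.one_le_iff_ne_zero.2 (prod_ne_zero_iff.2 fun l hl => (hT l hl).ne_zero)
  rw [← hqd] at hq
  obtain ⟨CT, hCT⟩ : ∃ CT : Finset ℕ, CT = (range q).filter (fun r => ∀ l ∈ T, (l : ℤ) ∣ f.eval ((r % l : ℕ) : ℤ) - m) :=
    ⟨_, rfl⟩
  have hsub : (pz x).filter (fun p : ℕ => ∀ l ∈ T, (l : ℤ) ∣ f.eval (p : ℤ) - m) ⊆
      CT.biUnion (fun r : ℕ => (pz x).filter (fun p : ℕ => p % q = r)) := by
    intro p hp
    rw [mem_filter] at hp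
    rw [mem_biUnion]
    refine ⟨p % q, ?_, mem_filter.2 ⟨hp.1, rfl⟩⟩
    rw [hCT, mem_filter, mem_range]
    refine ⟨Nat.mod_lt _ hq1, fun l hl => ?_⟩
    have hlq : l ∣ q := by rw [hqd]; exact dvd_prod_of_mem _ hl
    rw [Nat.mod_mod_of_dvd p hlq, per]
    exact hp.2 l hl
  have hcard : (#CT : ℝ) ≤ ∏ _l ∈ T, (cc f : ℝ) := by
    have h1 := crt_card (fun l a => (l : ℤ) ∣ f.eval (a : ℤ) - m) T hT
    rw [hCT, hqd, h1]
    push_cast
    apply prod_le_prod (fun _ _ => Nat.cast_nonneg _)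
    intro l hl
    exact_mod_cast classes f hd m l (hT l hl)
  have h2 : (NT f m x T : ℝ) ≤ ∑ r ∈ CT, (#((pz x).filter (fun p : ℕ => p % q = r)) : ℝ) := by
    unfold NT
    have := (card_le_card hsub).trans card_biUnion_le
    exact_mod_cast this
  have hL : 0 < Real.log x := Real.log_pos (by exact_mod_cast (by omega : 1 < x))
  have hφ : (Nat.totient q : ℝ) = ∏ l ∈ T, ((l : ℝ) - 1) := by
    rw [hqd, totient_prod T hT, Nat.cast_prod]
    apply prod_congr rfl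
    intro l hl
    rw [Nat.cast_sub (hT l hl).one_le, Nat.cast_one]
  have hφ0 : (0 : ℝ) < Nat.totient q := by exact_mod_cast Nat.totient_pos.2 hq1
  calc (NT f m x T : ℝ) ≤ ∑ _r ∈ CT, (88 * x / (Nat.totient q * Real.log x) : ℝ) :=
        h2.trans (sum_le_sum fun r _ => bt_class q r x hq1 hq hx)
    _ = #CT * (88 * x / (Nat.totient q * Real.log x) : ℝ) := by rw [sum_const, nsmul_eq_mul]
    _ ≤ (∏ _l ∈ T, (cc f : ℝ)) * (88 * x / (Nat.totient q * Real.log x) : ℝ) :=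
        mul_le_mul_of_nonneg_right hcard (by positivity)
    _ = _ := by
        rw [hφ] at hφ0 ⊢
        rw [prod_div_distrib]
        field_simp

/-- the weights -/
noncomputable def gw (f : ℤ[X]) (m : ℤ) (Ls : Finset ℕ) (n : ℕ) : ℝ := by
  classical exact ∏ l ∈ Ls, (1 + if (l : ℤ) ∣ f.eval (n : ℤ) - m then 1 / ((l : ℝ) - 1) else 0)

lemma gw_sum (f : ℤ[X]) (m : ℤ) (x : ℕ) (Ls : Finset ℕ) :
    ∑ p ∈ pz x, (gw f m Ls p - 1) = ∑ T ∈ Ls.powerset.erase ∅, (∏ l ∈ T, 1 / ((l : ℝ) - 1)) * NT f m x T := by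
  classical
  have h1 : ∀ p, gw f m Ls p - 1 = ∑ T ∈ Ls.powerset.erase ∅,
      (if ∀ l ∈ T, (l : ℤ) ∣ f.eval (p : ℤ) - m then ∏ l ∈ T, 1 / ((l : ℝ) - 1) else 0) := by
    intro p
    unfold gw
    rw [prod_one_add, ← add_sum_erase _ _ (empty_mem_powerset Ls), prod_empty, add_sub_cancel_left]
    apply sum_congr rfl
    intro T _
    rw [prod_ite_zero]
  rw [sum_congr rfl (fun p _ => h1 p), sum_comm]
  apply sum_congr rfl
  intro T _
  rw [← sum_filter, sum_const, nsmul_eq_mul, mul_comm]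
  rfl

lemma sum_sq (w z : ℕ) (hw : 1 ≤ w) : (∑ l ∈ lz w z, 1 / ((l : ℝ) - 1) ^ 2 : ℝ) ≤ (2 : ℝ) / (w : ℝ) := by
  have hw0 : (0 : ℝ) < w := by exact_mod_cast hw
  have h1 : ∀ z : ℕ, w ≤ z → (∑ n ∈ Ioc w z, 1 / ((n : ℝ) - 1) ^ 2 : ℝ) ≤ (2 : ℝ) / (w : ℝ) - (2 : ℝ) / (z : ℝ) := by
    intro z hz
    induction z, hz using Nat.le_induction with
    | base => simp
    | succ z hz ih =>
      rw [sum_Ioc_succ_top hz]
      have hz0 : (0 : ℝ) < z := by exact_mod_cast (by omega : 0 < z)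
      have hz1 : (1 : ℝ) ≤ z := by exact_mod_cast (by omega : 1 ≤ z)
      have h2 : 1 / (((z + 1 : ℕ) : ℝ) - 1) ^ 2 ≤ 2 / z - 2 / ((z + 1 : ℕ) : ℝ) := by
        push_cast
        rw [add_sub_cancel_right, div_sub_div _ _ hz0.ne' (by linarith), div_le_div_iff₀ (by positivity) (by positivity)]
        nlinarith
      linarith
  rcases Nat.lt_or_ge z w with h | h
  · have : lz w z = ∅ := by
      unfold lz
      rw [filter_eq_empty_iff]
      intro l hl
      have := (mem_pz.1 hl).1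
      omega
    rw [this, sum_empty]
    positivity
  · refine le_trans ?_ ((h1 z h).trans (by linarith [show (0 : ℝ) ≤ 2 / z by positivity]))
    apply sum_le_sum_of_subset_of_nonneg
    · intro l hl
      unfold lz at hl
      rw [mem_filter, mem_pz] at hl
      rw [mem_Ioc]
      exact ⟨hl.2, hl.1.1⟩
    · intro n _ _
      positivity

lemma exp_sub_one_le (t : ℝ) (h0 : 0 ≤ t) (h1 : t ≤ 1 / 2) : Real.exp t - 1 ≤ 2 * t := by
  have h2 := Real.exp_bound_div_one_sub_of_interval h0 (by linarith : t < 1)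
  have h3 : 1 / (1 - t) ≤ 1 + 2 * t := by
    rw [div_le_iff₀ (by linarith)]
    nlinarith
  linarith

lemma prod_exp (Ls : Finset ℕ) (g : ℕ → ℝ) (hg : ∀ l ∈ Ls, 0 ≤ g l) : ∏ l ∈ Ls, (1 + g l) ≤ Real.exp (∑ l ∈ Ls, g l) := by
  rw [Real.exp_sum]
  apply prod_le_prod
  · intro l hl
    linarith [hg l hl]
  · intro l _
    linarith [Real.add_one_le_exp (g l)]

lemma big_L (E : ℕ) (hE : 1 ≤ E) : ∃ x0 : ℕ, ∀ x : ℕ, x0 ≤ x →
    2 * √(Real.log x) * (1 + E * Real.log (Real.log x)) + 2 * Real.log (Real.log x) ≤ Real.log x / (4 * E) ∧ 1 ≤ Real.log x := by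
  obtain ⟨x0, h0⟩ := ev_L' ((4 * E * (10 + 8 * E)) ^ 4)
  refine ⟨x0, fun x hx => ?_⟩
  have h1 := h0 x hx
  have hEr : (1 : ℝ) ≤ E := by exact_mod_cast hE
  have h2 : (1 : ℝ) ≤ 4 * E * (10 + 8 * E) := by nlinarith
  generalize Real.log (x : ℝ) = L at *
  have hL1 : 1 ≤ L := (one_le_pow₀ h2).trans h1
  have hL0 : 0 ≤ L := by linarith
  obtain ⟨u, hu⟩ : ∃ u : ℝ, u = √(√L) := ⟨_, rfl⟩
  have hu2 : u ^ 2 = √L := by rw [hu]; exact Real.sq_sqrt (Real.sqrt_nonneg _)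
  have hu4 : u ^ 4 = L := by
    rw [show u ^ 4 = (u ^ 2) ^ 2 by ring, hu2]
    exact Real.sq_sqrt hL0
  have hu0 : 0 ≤ u := by rw [hu]; exact Real.sqrt_nonneg _
  have hub : 4 * E * (10 + 8 * E) ≤ u := by
    by_contra hc
    push Not at hc
    have := pow_lt_pow_left₀ hc hu0 (by norm_num : (4 : ℕ) ≠ 0)
    rw [hu4] at this
    linarith
  have hu1 : 1 ≤ u := h2.trans hub
  have hlog : Real.log L ≤ 4 * u := by
    rw [← hu4, Real.log_pow]
    have := Real.log_le_sub_one_of_pos (by linarith : 0 < u)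
    push_cast
    linarith
  have hlog0 : 0 ≤ Real.log L := Real.log_nonneg hL1
  refine ⟨?_, hL1⟩
  rw [← hu2]
  have h3 : 2 * u ^ 2 * (1 + E * Real.log L) + 2 * Real.log L ≤ (10 + 8 * E) * u ^ 3 := by
    have h4 : 2 * u ^ 2 * (1 + E * Real.log L) ≤ 2 * u ^ 2 * (1 + E * (4 * u)) := by gcongr
    have h5 : u ^ 2 ≤ u ^ 3 := pow_le_pow_right₀ hu1 (by norm_num)
    have h6 : u ≤ u ^ 3 := by nlinarith
    calc _ ≤ 2 * u ^ 2 * (1 + E * (4 * u)) + 2 * (4 * u) := by linarith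
      _ = 2 * u ^ 2 + 8 * E * u ^ 3 + 8 * u := by ring
      _ ≤ 2 * u ^ 3 + 8 * E * u ^ 3 + 8 * u ^ 3 := by linarith
      _ = _ := by ring
  refine h3.trans ?_
  rw [le_div_iff₀ (by positivity), ← hu4]
  calc (10 + 8 * E) * u ^ 3 * (4 * E) = (4 * E * (10 + 8 * E)) * u ^ 3 := by ring
    _ ≤ u * u ^ 3 := mul_le_mul_of_nonneg_right hub (by positivity)
    _ = u ^ 4 := by ring

end Pool.Agent.H27.AS
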