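import Mathlib
import Pool.Agent.H27.AS.D

/-!
# Common small prime factors of `F(p) - m` on average over the primes `p`: the estimate
-/

set_option autoImplicit false

namespace Pool.Agent.H27.AS
open Finset Polynomial Pool.Agent.H373R2.T7

lemma mem_lz {w z l : ℕ} : l ∈ lz w z ↔ (l ≤ z ∧ l.Prime) ∧ w < l := by
  unfold lz
  rw [mem_filter, mem_pz]

lemma NT_triv (f : ℤ[X]) (m : ℤ) (x : ℕ) (T : Finset ℕ) : (NT f m x T : ℝ) ≤ x := by
  unfold NT
  have : #(pz x) ≤ x := card_pz_le x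
  exact_mod_cast (card_filter_le _ _).trans this

/-- one term -/
lemma term_le (f : ℤ[X]) (hd : 1 ≤ f.natDegree) (m : ℤ) (x : ℕ) (hx : 4 ≤ x) (T : Finset ℕ) (hT : ∀ l ∈ T, l.Prime)
    (τ : ℝ) (hτ : 0 < τ) :
    (∏ l ∈ T, 1 / ((l : ℝ) - 1)) * NT f m x T ≤
      (∏ l ∈ T, ((cc f : ℝ) / ((l : ℝ) - 1) ^ 2)) * (88 * x / Real.log x) +
      (∏ l ∈ T, (1 / ((l : ℝ) - 1) * (l : ℝ) ^ τ)) * (x * (x : ℝ) ^ (-(τ / 2))) := by
  have hl1 : ∀ l ∈ T, (0 : ℝ) < (l : ℝ) - 1 := by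
    intro l hl
    have : (2 : ℝ) ≤ l := by exact_mod_cast (hT l hl).two_le
    linarith
  have hx0 : (0 : ℝ) < x := by exact_mod_cast (by omega : 0 < x)
  have hL : 0 < Real.log x := Real.log_pos (by exact_mod_cast (by omega : 1 < x))
  have hb : 0 ≤ ∏ l ∈ T, 1 / ((l : ℝ) - 1) := prod_nonneg fun l hl => by have := hl1 l hl; positivity
  have hA : 0 ≤ (∏ l ∈ T, ((cc f : ℝ) / ((l : ℝ) - 1) ^ 2)) * (88 * x / Real.log x) := by
    apply mul_nonneg _ (by positivity)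
    exact prod_nonneg fun l hl => by have := hl1 l hl; positivity
  have hB : 0 ≤ (∏ l ∈ T, (1 / ((l : ℝ) - 1) * (l : ℝ) ^ τ)) * (x * (x : ℝ) ^ (-(τ / 2))) := by
    apply mul_nonneg _ (by positivity)
    exact prod_nonneg fun l hl => by have := hl1 l hl; positivity
  rcases le_or_gt ((∏ l ∈ T, l) * (∏ l ∈ T, l)) x with h | h
  · have h1 := mul_le_mul_of_nonneg_left (NT_le f hd m x hx T hT h) hb
    have h2 : (∏ l ∈ T, 1 / ((l : ℝ) - 1)) * ((∏ l ∈ T, ((cc f : ℝ) / ((l : ℝ) - 1))) * (88 * x / Real.log x)) =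
        (∏ l ∈ T, ((cc f : ℝ) / ((l : ℝ) - 1) ^ 2)) * (88 * x / Real.log x) := by
      rw [← mul_assoc, ← prod_mul_distrib]
      congr 1
      apply prod_congr rfl
      intro l hl
      have := (hl1 l hl).ne'
      field_simp
    rw [h2] at h1
    linarith
  · obtain ⟨q, hq⟩ : ∃ q : ℝ, q = ∏ l ∈ T, (l : ℝ) := ⟨_, rfl⟩
    have hq0 : 0 < q := by
      rw [hq]
      exact prod_pos fun l hl => by exact_mod_cast (hT l hl).pos
    have hq2 : (x : ℝ) ≤ q ^ (2 : ℝ) := by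
      have h3 : (x : ℝ) < q * q := by
        rw [hq]
        have : ((x : ℕ) : ℝ) < (((∏ l ∈ T, l) * (∏ l ∈ T, l) : ℕ) : ℝ) := by exact_mod_cast h
        push_cast at this
        exact this
      rw [show (2 : ℝ) = ((2 : ℕ) : ℝ) by norm_num, Real.rpow_natCast, pow_two]
      exact h3.le
    have h4 : 1 ≤ (∏ l ∈ T, (l : ℝ) ^ τ) * (x : ℝ) ^ (-(τ / 2)) := by
      rw [Real.finsetProd_rpow _ _ (fun l _ => Nat.cast_nonneg l), ← hq]
      have h5 : (x : ℝ) ^ (τ / 2) ≤ q ^ τ := by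
        have h6 := Real.rpow_le_rpow hx0.le hq2 (by positivity : 0 ≤ τ / 2)
        rw [← Real.rpow_mul hq0.le] at h6
        rwa [show 2 * (τ / 2) = τ by ring] at h6
      rw [Real.rpow_neg hx0.le, ← div_eq_mul_inv, le_div_iff₀ (by positivity), one_mul]
      exact h5
    have h7 : (∏ l ∈ T, 1 / ((l : ℝ) - 1)) * NT f m x T ≤
        (∏ l ∈ T, (1 / ((l : ℝ) - 1) * (l : ℝ) ^ τ)) * (x * (x : ℝ) ^ (-(τ / 2))) := by
      rw [prod_mul_distrib]
      calc (∏ l ∈ T, 1 / ((l : ℝ) - 1)) * NT f m x T ≤ (∏ l ∈ T, 1 / ((l : ℝ) - 1)) * x :=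
            mul_le_mul_of_nonneg_left (NT_triv f m x T) hb
        _ = ((∏ l ∈ T, 1 / ((l : ℝ) - 1)) * x) * 1 := by ring
        _ ≤ ((∏ l ∈ T, 1 / ((l : ℝ) - 1)) * x) * ((∏ l ∈ T, (l : ℝ) ^ τ) * (x : ℝ) ^ (-(τ / 2))) :=
            mul_le_mul_of_nonneg_left h4 (mul_nonneg hb hx0.le)
        _ = _ := by ring
    linarith

theorem avg (f : ℤ[X]) (hd : 1 ≤ f.natDegree) (E : ℕ) (hE : 1 ≤ E) : ∃ x0 : ℕ, ∀ x : ℕ, x0 ≤ x → ∀ w z : ℕ,
    4 * cc f + 2 ≤ w → (z : ℝ) ≤ Real.log x ^ E → ∀ m : ℤ,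
    ∑ p ∈ pz x, (gw f m (lz w z) p - 1) ≤ 352 * cc f / w * (x / Real.log x) + x / Real.log x ^ 2 := by
  classical
  obtain ⟨x0, h0⟩ := big_L E hE
  refine ⟨x0 + 4, fun x hx w z hw hz m => ?_⟩
  obtain ⟨h1, hL1⟩ := h0 x (by omega)
  have hx4 : 4 ≤ x := by omega
  have hx0 : (0 : ℝ) < x := by exact_mod_cast (by omega : 0 < x)
  have hxe : (x : ℝ) = Real.exp (Real.log x) := (Real.exp_log hx0).symm
  have hEr : (1 : ℝ) ≤ E := by exact_mod_cast hE
  have hw0 : (0 : ℝ) < w := by exact_mod_cast (by omega : 0 < w)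
  obtain ⟨τ, hτ⟩ : ∃ τ : ℝ, τ = 1 / (2 * E) := ⟨_, rfl⟩
  have hτ0 : 0 < τ := by rw [hτ]; positivity
  have hlp : ∀ l ∈ lz w z, l.Prime := fun l hl => (mem_lz.1 hl).1.2
  have hl1 : ∀ l ∈ lz w z, (0 : ℝ) < (l : ℝ) - 1 := by
    intro l hl
    have : (2 : ℝ) ≤ l := by exact_mod_cast (hlp l hl).two_le
    linarith
  rw [gw_sum]
  have hstep : ∑ T ∈ (lz w z).powerset.erase ∅, (∏ l ∈ T, 1 / ((l : ℝ) - 1)) * NT f m x T ≤
      ∑ T ∈ (lz w z).powerset.erase ∅, ((∏ l ∈ T, ((cc f : ℝ) / ((l : ℝ) - 1) ^ 2)) * (88 * x / Real.log x) +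
      (∏ l ∈ T, (1 / ((l : ℝ) - 1) * (l : ℝ) ^ τ)) * (x * (x : ℝ) ^ (-(τ / 2)))) := by
    apply sum_le_sum
    intro T hT
    have hTs : T ⊆ lz w z := mem_powerset.1 (mem_of_mem_erase hT)
    exact term_le f hd m x hx4 T (fun l hl => hlp l (hTs hl)) τ hτ0
  refine hstep.trans ?_
  rw [sum_add_distrib, ← sum_mul, ← sum_mul]
  generalize hLd : Real.log (x : ℝ) = L at *
  have hL0 : 0 < L := by linarith
  have hlogL : 0 ≤ Real.log L := Real.log_nonneg hL1
  apply add_le_add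
  · -- main part
    have e1 : ∑ T ∈ (lz w z).powerset.erase ∅, ∏ l ∈ T, ((cc f : ℝ) / ((l : ℝ) - 1) ^ 2) =
        ∏ l ∈ lz w z, (1 + (cc f : ℝ) / ((l : ℝ) - 1) ^ 2) - 1 := by
      rw [prod_one_add, ← add_sum_erase _ _ (empty_mem_powerset (lz w z)), prod_empty, add_sub_cancel_left]
    have e2 : ∏ l ∈ lz w z, (1 + (cc f : ℝ) / ((l : ℝ) - 1) ^ 2) ≤ Real.exp (cc f * (2 / w)) := by
      refine (prod_exp _ _ (fun l hl => by have := hl1 l hl; positivity)).trans (Real.exp_le_exp.2 ?_)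
      have := mul_le_mul_of_nonneg_left (sum_sq w z (by omega)) (Nat.cast_nonneg (α := ℝ) (cc f))
      refine le_trans (le_of_eq ?_) this
      rw [mul_sum]
      apply sum_congr rfl
      intro l _
      ring
    have e3 : (cc f : ℝ) * (2 / w) ≤ 1 / 2 := by
      rw [mul_div_assoc', div_le_iff₀ hw0]
      have : (4 * cc f + 2 : ℝ) ≤ w := by exact_mod_cast hw
      linarith
    have e4 := exp_sub_one_le _ (by positivity) e3
    have e5 : (∑ T ∈ (lz w z).powerset.erase ∅, ∏ l ∈ T, ((cc f : ℝ) / ((l : ℝ) - 1) ^ 2) : ℝ) ≤ 4 * (cc f : ℝ) / (w : ℝ) := by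
      rw [e1]
      have : 2 * ((cc f : ℝ) * (2 / w)) = 4 * cc f / w := by ring
      linarith
    calc _ ≤ (4 * (cc f : ℝ) / (w : ℝ)) * (88 * x / L) := mul_le_mul_of_nonneg_right e5 (by positivity)
      _ = _ := by ring
  · -- tail
    have e1 : ∑ T ∈ (lz w z).powerset.erase ∅, ∏ l ∈ T, (1 / ((l : ℝ) - 1) * (l : ℝ) ^ τ) ≤
        ∏ l ∈ lz w z, (1 + 1 / ((l : ℝ) - 1) * (l : ℝ) ^ τ) := by
      rw [prod_one_add]
      apply sum_le_sum_of_subset_of_nonneg (erase_subset _ _)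
      intro T hT _
      exact prod_nonneg fun l hl => by have := hl1 l (mem_powerset.1 hT hl); positivity
    have e2 : ∏ l ∈ lz w z, (1 + 1 / ((l : ℝ) - 1) * (l : ℝ) ^ τ) ≤
        Real.exp (2 * √L * (1 + E * Real.log L)) := by
      refine (prod_exp _ _ (fun l hl => by have := hl1 l hl; positivity)).trans (Real.exp_le_exp.2 ?_)
      have e3 : ∀ l ∈ lz w z, 1 / ((l : ℝ) - 1) * (l : ℝ) ^ τ ≤ (2 * √L) * (1 / (l : ℝ)) := by
        intro l hl
        have h2 : (2 : ℝ) ≤ l := by exact_mod_cast (hlp l hl).two_le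
        have h3 : (l : ℝ) ^ τ ≤ √L := by
          have h4 : (l : ℝ) ≤ L ^ E := le_trans (by exact_mod_cast (mem_lz.1 hl).1.1) hz
          have h5 := Real.rpow_le_rpow (by linarith) h4 hτ0.le
          rw [← Real.rpow_natCast, ← Real.rpow_mul hL0.le] at h5
          have h6 : (E : ℝ) * τ = 1 / 2 := by
            rw [hτ]
            field_simp
          rwa [h6, ← Real.sqrt_eq_rpow] at h5
        have h7 : 1 / ((l : ℝ) - 1) ≤ 2 * (1 / (l : ℝ)) := by
          rw [mul_one_div, div_le_div_iff₀ (by linarith) (by linarith)]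
          linarith
        calc 1 / ((l : ℝ) - 1) * (l : ℝ) ^ τ ≤ (2 * (1 / (l : ℝ))) * √L := by
              apply mul_le_mul h7 h3 (by positivity) (by positivity)
          _ = _ := by ring
      refine (sum_le_sum e3).trans ?_
      rw [← mul_sum]
      apply mul_le_mul_of_nonneg_left _ (by positivity)
      have e4 : ∑ l ∈ lz w z, 1 / (l : ℝ) ≤ ∑ l ∈ pz z, 1 / (l : ℝ) := by
        apply sum_le_sum_of_subset_of_nonneg
        · unfold lz
          exact filter_subset _ _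
        · intro l _ _
          positivity
      refine e4.trans ((sum_pz_le z).trans ?_)
      have e5 : Real.log z ≤ E * Real.log L := by
        rcases Nat.eq_zero_or_pos z with h | h
        · rw [h]
          simp only [Nat.cast_zero, Real.log_zero]
          positivity
        · have := Real.log_le_log (by exact_mod_cast h) hz
          rwa [Real.log_pow] at this
      linarith
    have e6 : (x : ℝ) ^ (-(τ / 2)) = Real.exp (-(L / (4 * E))) := by
      rw [Real.rpow_def_of_pos hx0, hLd, hτ]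
      congr 1
      field_simp
      ring
    have e7 : Real.exp (2 * √L * (1 + E * Real.log L)) * Real.exp (-(L / (4 * E))) ≤ 1 / L ^ 2 := by
      rw [← Real.exp_add]
      have e8 : 1 / L ^ 2 = Real.exp (-(2 * Real.log L)) := by
        rw [Real.exp_neg, one_div]
        congr 1
        rw [two_mul, Real.exp_add, Real.exp_log hL0, pow_two]
      rw [e8]
      apply Real.exp_le_exp.2
      linarith
    calc _ ≤ Real.exp (2 * √L * (1 + E * Real.log L)) * (x * (x : ℝ) ^ (-(τ / 2))) :=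
          mul_le_mul_of_nonneg_right (e1.trans e2) (by positivity)
      _ = x * (Real.exp (2 * √L * (1 + E * Real.log L)) * Real.exp (-(L / (4 * E)))) := by rw [e6]; ring
      _ ≤ x * (1 / L ^ 2) := mul_le_mul_of_nonneg_left e7 hx0.le
      _ = _ := by ring

end Pool.Agent.H27.AS
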