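import Mathlib
import Pool.Agent.H27.AS.E

/-!
# Pair correlations of the sieve model over the shifts
-/

set_option autoImplicit false

namespace Pool.Agent.H27.AS
open Finset Polynomial Pool.Agent.H373R2.T7

/-- local factor -/
noncomputable def kap (l : ℕ) (h : ℤ) : ℝ := by
  classical exact if (l : ℤ) ∣ h then (1 - 1 / (l : ℝ))⁻¹ else (1 - 2 / (l : ℝ)) * ((1 - 1 / (l : ℝ))⁻¹ * (1 - 1 / (l : ℝ))⁻¹)

/-- the pair correlation -/
noncomputable def Cor (w : ℕ) (h : ℤ) : ℝ := ∏ l ∈ pz w, kap l h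

/-- the sieve conditions for two numbers `M + a`, `M' + a` -/
def QQ (w1 w2 M M' l a : ℕ) : Prop := (l ≤ w1 ∧ l ∣ M + a) ∨ (l ≤ w2 ∧ l ∣ M' + a)

lemma dvd_iff_eq (l M r : ℕ) (hr : r < l) : l ∣ M + r ↔ r = (l - M % l) % l := by
  have hl : 0 < l := by omega
  have h1 : l ∣ M + r ↔ l ∣ M % l + r := by
    rw [Nat.dvd_iff_mod_eq_zero, Nat.dvd_iff_mod_eq_zero, Nat.mod_add_mod]
  have ht := Nat.mod_lt M hl
  rw [h1]
  generalize M % l = t at *
  rcases Nat.eq_zero_or_pos t with h0 | h0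
  · rw [h0, zero_add, Nat.sub_zero, Nat.mod_self]
    constructor
    · intro h
      exact Nat.eq_zero_of_dvd_of_lt h hr
    · rintro rfl
      exact dvd_zero _
  · rw [Nat.mod_eq_of_lt (by omega : l - t < l)]
    constructor
    · rintro ⟨c, hc⟩
      have hc1 : c = 1 := by
        rcases Nat.lt_or_ge c 1 with h | h
        · have : c = 0 := by omega
          rw [this] at hc
          omega
        · rcases Nat.lt_or_ge 1 c with h' | h'
          · have : l * 2 ≤ l * c := Nat.mul_le_mul_left _ h'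
            omega
          · omega
      rw [hc1] at hc
      omega
    · intro h
      rw [h]
      have : t + (l - t) = l := by omega
      rw [this]

lemma card_two (l M M' : ℕ) (hl : 0 < l) : by
    classical exact #((range l).filter (fun r => l ∣ M + r ∨ l ∣ M' + r)) = if (l : ℤ) ∣ (M : ℤ) - M' then 1 else 2 := by
  classical
  have e : (range l).filter (fun r => l ∣ M + r ∨ l ∣ M' + r) = {(l - M % l) % l, (l - M' % l) % l} := by
    ext r
    rw [mem_filter, mem_range, mem_insert, mem_singleton]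
    constructor
    · rintro ⟨hr, h | h⟩
      · exact Or.inl ((dvd_iff_eq l M r hr).1 h)
      · exact Or.inr ((dvd_iff_eq l M' r hr).1 h)
    · rintro (h | h)
      · have hr : r < l := by rw [h]; exact Nat.mod_lt _ hl
        exact ⟨hr, Or.inl ((dvd_iff_eq l M r hr).2 h)⟩
      · have hr : r < l := by rw [h]; exact Nat.mod_lt _ hl
        exact ⟨hr, Or.inr ((dvd_iff_eq l M' r hr).2 h)⟩
  have hr1 : (l - M % l) % l < l := Nat.mod_lt _ hl
  have d1 : l ∣ M + (l - M % l) % l := (dvd_iff_eq l M _ hr1).2 rfl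
  rw [e]
  split_ifs with h
  · have d2 : l ∣ M' + (l - M % l) % l := by
      have h1 : (l : ℤ) ∣ ((M + (l - M % l) % l : ℕ) : ℤ) := by exact_mod_cast d1
      have h2 : ((M' + (l - M % l) % l : ℕ) : ℤ) = ((M + (l - M % l) % l : ℕ) : ℤ) - ((M : ℤ) - M') := by
        push_cast
        ring
      have h3 : (l : ℤ) ∣ ((M' + (l - M % l) % l : ℕ) : ℤ) := by
        rw [h2]
        exact dvd_sub h1 h
      exact_mod_cast h3
    have h4 := (dvd_iff_eq l M' _ hr1).1 d2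
    rw [← h4, pair_eq_singleton, card_singleton]
  · apply card_pair
    intro h5
    apply h
    have d2 : l ∣ M' + (l - M % l) % l := (dvd_iff_eq l M' _ hr1).2 h5
    have h1 : (l : ℤ) ∣ ((M + (l - M % l) % l : ℕ) : ℤ) := by exact_mod_cast d1
    have h3 : (l : ℤ) ∣ ((M' + (l - M % l) % l : ℕ) : ℤ) := by exact_mod_cast d2
    have := dvd_sub h1 h3
    push_cast at this
    rwa [add_sub_add_right_eq_sub] at this

lemma card_one (l M : ℕ) (hl : 0 < l) : by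
    classical exact #((range l).filter (fun r => l ∣ M + r)) = 1 := by
  classical
  have h := card_two l M M hl
  simp only [or_self, sub_self, dvd_zero, if_true] at h
  exact h

lemma factor (w1 w2 M M' l : ℕ) (hl : l.Prime) :
    ((if l ≤ w1 then (1 - 1 / (l : ℝ))⁻¹ else 1) * (if l ≤ w2 then (1 - 1 / (l : ℝ))⁻¹ else 1)) *
      (1 - (nuB (QQ w1 w2 M M') l : ℝ) / l) = if l ≤ w1 ∧ l ≤ w2 then kap l ((M : ℤ) - M') else 1 := by
  classical
  have hl2 : (2 : ℝ) ≤ l := by exact_mod_cast hl.two_le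
  have hne : (1 - 1 / (l : ℝ)) ≠ 0 := by
    have : 1 / (l : ℝ) ≤ 1 / 2 := one_div_le_one_div_of_le (by norm_num) hl2
    linarith
  unfold nuB QQ
  by_cases h1 : l ≤ w1
  · by_cases h2 : l ≤ w2
    · have e := card_two l M M' hl.pos
      simp only [h1, h2, true_and, and_self, if_true]
      rw [show (#{r ∈ range l | l ∣ M + r ∨ l ∣ M' + r} : ℝ) = ((if (l : ℤ) ∣ (M : ℤ) - M' then 1 else 2 : ℕ) : ℝ) by
        rw [← e]]
      unfold kap
      split_ifs with h3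
      · push_cast
        rw [mul_assoc, inv_mul_cancel₀ hne, mul_one]
      · push_cast
        ring
    · have e := card_one l M hl.pos
      simp only [h1, h2, true_and, false_and, or_false, and_false, if_true, if_false]
      rw [show (#{r ∈ range l | l ∣ M + r} : ℝ) = ((1 : ℕ) : ℝ) by rw [← e]]
      push_cast
      rw [mul_one, inv_mul_cancel₀ hne]
  · by_cases h2 : l ≤ w2
    · have e := card_one l M' hl.pos
      simp only [h1, h2, true_and, false_and, false_or, and_true, if_true, if_false]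
      rw [show (#{r ∈ range l | l ∣ M' + r} : ℝ) = ((1 : ℕ) : ℝ) by rw [← e]]
      push_cast
      rw [one_mul, inv_mul_cancel₀ hne]
    · simp [h1, h2]

lemma pz_filter (w z : ℕ) (h : w ≤ z) : (pz z).filter (fun l => l ≤ w) = pz w := by
  ext l
  rw [mem_filter, mem_pz, mem_pz]
  constructor
  · rintro ⟨⟨-, h2⟩, h3⟩
    exact ⟨h3, h2⟩
  · rintro ⟨h1, h2⟩
    exact ⟨⟨h1.trans h, h2⟩, h1⟩

lemma Vz_inv_prod (w z : ℕ) (h : w ≤ z) : (Vz w)⁻¹ = ∏ l ∈ pz z, (if l ≤ w then (1 - 1 / (l : ℝ))⁻¹ else 1) := by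
  rw [← prod_filter, pz_filter w z h]
  unfold Vz
  rw [prod_inv_distrib]

lemma Cor_eq (w1 w2 z : ℕ) (h1 : w1 ≤ z) (h2 : w2 ≤ z) (M M' : ℕ) :
    (Vz w1)⁻¹ * (Vz w2)⁻¹ * ∏ l ∈ pz z, (1 - (nuB (QQ w1 w2 M M') l : ℝ) / l) = Cor (min w1 w2) ((M : ℤ) - M') := by
  have hmin : min w1 w2 ≤ z := (min_le_left _ _).trans h1
  have e : Cor (min w1 w2) ((M : ℤ) - M') = ∏ l ∈ pz z, (if l ≤ w1 ∧ l ≤ w2 then kap l ((M : ℤ) - M') else 1) := by
    rw [← prod_filter]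
    unfold Cor
    rw [← pz_filter _ z hmin]
    simp only [le_min_iff]
  rw [e, ← prod_congr rfl (fun l hl => factor w1 w2 M M' l (mem_pz.1 hl).2), prod_mul_distrib, prod_mul_distrib,
    ← Vz_inv_prod w1 z h1, ← Vz_inv_prod w2 z h2]

lemma QQ_per (w1 w2 M M' : ℕ) : PerB (QQ w1 w2 M M') 2 := by
  classical
  have h : ∀ p N n : ℕ, p ∣ N + n ↔ p ∣ N + n % p := by
    intro p N n
    rw [Nat.dvd_iff_mod_eq_zero, Nat.dvd_iff_mod_eq_zero, Nat.add_mod_mod]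
  refine ⟨fun p n => ?_, fun p hp => ?_⟩
  · unfold QQ
    rw [h p M n, h p M' n]
  · unfold nuB QQ
    have h1 : #((range p).filter (fun r => (p ≤ w1 ∧ p ∣ M + r) ∨ (p ≤ w2 ∧ p ∣ M' + r))) ≤
        #((range p).filter (fun r => p ∣ M + r ∨ p ∣ M' + r)) := by
      apply card_le_card
      intro r hr
      rw [mem_filter] at hr ⊢
      rcases hr.2 with h2 | h2
      · exact ⟨hr.1, Or.inl h2.2⟩
      · exact ⟨hr.1, Or.inr h2.2⟩
    have h2 := card_two p M M' hp.pos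
    refine le_trans ?_ (h1.trans ?_)
    · exact le_of_eq (by congr)
    · rw [h2]
      split_ifs <;> norm_num

/-- pair correlations -/
theorem pair (E U : ℕ) : ∃ N0 : ℕ, ∀ N : ℕ, N0 ≤ N → ∀ z : ℕ, 1 ≤ z → (z : ℝ) ≤ Real.log N ^ E →
    ∀ w1 w2 : ℕ, 1 ≤ w1 → w1 ≤ z → 1 ≤ w2 → w2 ≤ z → ∀ M M' : ℕ,
    |∑ a ∈ Icc 1 N, lamz w1 (M + a) * lamz w2 (M' + a) - N * Cor (min w1 w2) ((M : ℤ) - M')| ≤ N / Real.log N ^ U := by
  classical
  obtain ⟨n1, h1⟩ := sys_count 2 E (U + 2) (by norm_num)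
  obtain ⟨n2, h2⟩ := Vz_inv_small E
  obtain ⟨n3, h3⟩ := ev_L' 1
  refine ⟨n1 + n2 + n3, fun N hN z hz hzE w1 w2 hw1 hw1z hw2 hw2z M M' => ?_⟩
  have hL := h3 N (by omega)
  have hL0 : 0 < Real.log (N : ℝ) := by linarith
  have hv1 := h2 N (by omega) w1 hw1 (le_trans (by exact_mod_cast hw1z) hzE)
  have hv2 := h2 N (by omega) w2 hw2 (le_trans (by exact_mod_cast hw2z) hzE)
  have hc := h1 N (by omega) z hz hzE (QQ w1 w2 M M') (QQ_per w1 w2 M M')
  have e : ∑ a ∈ Icc 1 N, lamz w1 (M + a) * lamz w2 (M' + a) =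
      (Vz w1)⁻¹ * (Vz w2)⁻¹ * ((((Icc 1 N).filter (fun n : ℕ => ∀ p ∈ pz z, ¬ QQ w1 w2 M M' p n)).card : ℕ) : ℝ) := by
    rw [mul_comm _ ((((Icc 1 N).filter (fun n : ℕ => ∀ p ∈ pz z, ¬ QQ w1 w2 M M' p n)).card : ℕ) : ℝ), ← nsmul_eq_mul, ← sum_const,
      sum_filter]
    apply sum_congr rfl
    intro a _
    unfold lamz
    have hiff : (∀ p ∈ pz z, ¬ QQ w1 w2 M M' p a) ↔ (∀ p ∈ pz w1, ¬ p ∣ M + a) ∧ (∀ p ∈ pz w2, ¬ p ∣ M' + a) := by
      unfold QQ
      constructor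
      · intro h
        refine ⟨fun p hp hd => ?_, fun p hp hd => ?_⟩
        · rw [mem_pz] at hp
          exact h p (mem_pz.2 ⟨hp.1.trans hw1z, hp.2⟩) (Or.inl ⟨hp.1, hd⟩)
        · rw [mem_pz] at hp
          exact h p (mem_pz.2 ⟨hp.1.trans hw2z, hp.2⟩) (Or.inr ⟨hp.1, hd⟩)
      · rintro ⟨ha, hb⟩ p hp (hd | hd)
        · exact ha p (mem_pz.2 ⟨hd.1, (mem_pz.1 hp).2⟩) hd.2
        · exact hb p (mem_pz.2 ⟨hd.1, (mem_pz.1 hp).2⟩) hd.2
    by_cases ha : ∀ p ∈ pz w1, ¬ p ∣ M + a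
    · by_cases hb : ∀ p ∈ pz w2, ¬ p ∣ M' + a
      · rw [if_pos ha, if_pos hb, if_pos (hiff.2 ⟨ha, hb⟩)]
      · rw [if_neg hb, mul_zero, if_neg (fun h => hb (hiff.1 h).2)]
    · rw [if_neg ha, zero_mul, if_neg (fun h => ha (hiff.1 h).1)]
  rw [e, ← Cor_eq w1 w2 z hw1z hw2z M M']
  have hV1 := (inv_pos.2 (Vz_pos w1)).le
  have hV2 := (inv_pos.2 (Vz_pos w2)).le
  have e2 : (Vz w1)⁻¹ * (Vz w2)⁻¹ * ((((Icc 1 N).filter (fun n : ℕ => ∀ p ∈ pz z, ¬ QQ w1 w2 M M' p n)).card : ℕ) : ℝ) -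
      N * ((Vz w1)⁻¹ * (Vz w2)⁻¹ * ∏ l ∈ pz z, (1 - (nuB (QQ w1 w2 M M') l : ℝ) / l)) =
      ((Vz w1)⁻¹ * (Vz w2)⁻¹) * (((((Icc 1 N).filter (fun n : ℕ => ∀ p ∈ pz z, ¬ QQ w1 w2 M M' p n)).card : ℕ) : ℝ) -
      N * ∏ l ∈ pz z, (1 - (nuB (QQ w1 w2 M M') l : ℝ) / l)) := by ring
  rw [e2, abs_mul, abs_of_nonneg (mul_nonneg hV1 hV2)]
  calc _ ≤ (Real.log N * Real.log N) * (N / Real.log N ^ (U + 2)) := by
        apply mul_le_mul (mul_le_mul hv1 hv2 hV2 hL0.le) hc (abs_nonneg _) (by positivity)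
    _ = _ := by
        rw [pow_add]
        field_simp

end Pool.Agent.H27.AS
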