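import Mathlib
import Pool.Agent.H27.AS.F

/-!
# The variance of the part of the sieve model which comes from the primes larger than `w`
-/

set_option autoImplicit false

namespace Pool.Agent.H27.AS
open Finset Polynomial Pool.Agent.H373R2.T7

lemma V_small (η : ℝ) (hη : 0 < η) : ∃ w0 : ℕ, 1 ≤ w0 ∧ ∀ w : ℕ, w0 ≤ w → (Vz w)⁻¹ ≤ η * w := by
  obtain ⟨N0, h0⟩ := Vz_inv_small 2
  obtain ⟨w0, hw0⟩ : ∃ w0 : ℕ, w0 = ⌈(Real.log (N0 + 1)) ^ 2⌉₊ + ⌈4 / η ^ 2⌉₊ + 1 := ⟨_, rfl⟩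
  refine ⟨w0, by omega, fun w hw => ?_⟩
  have hw1 : (1 : ℝ) ≤ w := by exact_mod_cast (by omega : 1 ≤ w)
  have hs1 : 1 ≤ √(w : ℝ) := Real.one_le_sqrt.2 hw1
  have hs2 : √(w : ℝ) ^ 2 = w := Real.sq_sqrt (by linarith)
  obtain ⟨N, hN⟩ : ∃ N : ℕ, N = ⌈Real.exp (√(w : ℝ))⌉₊ := ⟨_, rfl⟩
  have hNe : Real.exp (√(w : ℝ)) ≤ N := by rw [hN]; exact Nat.le_ceil _
  have hNe2 : (N : ℝ) < Real.exp (√(w : ℝ)) + 1 := by rw [hN]; exact Nat.ceil_lt_add_one (Real.exp_pos _).le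
  have hNpos : (0 : ℝ) < N := lt_of_lt_of_le (Real.exp_pos _) hNe
  have hlow : √(w : ℝ) ≤ Real.log N := by
    rw [Real.le_log_iff_exp_le hNpos]
    exact hNe
  have hup : Real.log N ≤ √(w : ℝ) + 1 := by
    rw [Real.log_le_iff_le_exp hNpos, Real.exp_add]
    have h1 : 1 ≤ Real.exp (√(w : ℝ)) := Real.one_le_exp (Real.sqrt_nonneg _)
    have h2 := Real.add_one_le_exp (1 : ℝ)
    nlinarith
  have hNN0 : N0 ≤ N := by
    have h1 : (Real.log (N0 + 1)) ^ 2 ≤ w := by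
      have h2 := Nat.le_ceil ((Real.log ((N0 : ℝ) + 1)) ^ 2)
      have h3 : (⌈(Real.log ((N0 : ℝ) + 1)) ^ 2⌉₊ : ℝ) ≤ w := by exact_mod_cast (by omega : ⌈(Real.log ((N0 : ℝ) + 1)) ^ 2⌉₊ ≤ w)
      linarith
    have h4 : Real.log ((N0 : ℝ) + 1) ≤ √(w : ℝ) := by
      rw [← hs2] at h1
      exact le_of_sq_le_sq h1 (Real.sqrt_nonneg _)
    have h5 : (N0 : ℝ) + 1 ≤ Real.exp (√(w : ℝ)) := by
      rw [← Real.log_le_iff_le_exp (by positivity)]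
      exact h4
    have h6 : (N0 : ℝ) ≤ N := by linarith
    exact_mod_cast h6
  have h7 := h0 N hNN0 w (by omega) (by rw [← hs2]; exact pow_le_pow_left₀ (Real.sqrt_nonneg _) hlow 2)
  have h8 : 2 * √(w : ℝ) ≤ η * w := by
    have h9 : 4 / η ^ 2 ≤ w := by
      have h2 := Nat.le_ceil (4 / η ^ 2)
      have h3 : (⌈4 / η ^ 2⌉₊ : ℝ) ≤ w := by exact_mod_cast (by omega : ⌈4 / η ^ 2⌉₊ ≤ w)
      linarith
    have h10 : 2 / η ≤ √(w : ℝ) := by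
      apply Real.le_sqrt_of_sq_le
      rw [div_pow]
      norm_num
      exact h9
    rw [div_le_iff₀ hη] at h10
    nlinarith
  linarith

open Classical in
lemma kap_bd (l : ℕ) (hl : l.Prime) (h : ℤ) : 0 ≤ kap l h ∧ kap l h ≤ (1 - 1 / (l : ℝ))⁻¹ ∧
    kap l h ≤ 1 + (if (l : ℤ) ∣ h then 1 / ((l : ℝ) - 1) else 0) := by
  have hl2 : (2 : ℝ) ≤ l := by exact_mod_cast hl.two_le
  have h1 : 0 < 1 - 1 / (l : ℝ) := by
    have : 1 / (l : ℝ) ≤ 1 / 2 := one_div_le_one_div_of_le (by norm_num) hl2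
    linarith
  have h2 : 0 ≤ 1 - 2 / (l : ℝ) := by
    have : 2 / (l : ℝ) ≤ 1 := by rw [div_le_one (by linarith)]; exact hl2
    linarith
  have e : (1 - 1 / (l : ℝ))⁻¹ = 1 + 1 / ((l : ℝ) - 1) := by
    have : (l : ℝ) - 1 ≠ 0 := by linarith
    have : (l : ℝ) ≠ 0 := by linarith
    field_simp
    ring
  have h3 : (1 - 2 / (l : ℝ)) * ((1 - 1 / (l : ℝ))⁻¹ * (1 - 1 / (l : ℝ))⁻¹) ≤ 1 := by
    rw [← mul_inv, ← div_eq_mul_inv, div_le_one (by positivity)]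
    have : (1 - 1 / (l : ℝ)) * (1 - 1 / (l : ℝ)) = (1 - 2 / (l : ℝ)) + (1 / (l : ℝ)) ^ 2 := by ring
    rw [this]
    nlinarith [sq_nonneg (1 / (l : ℝ))]
  have h4 : 1 ≤ (1 - 1 / (l : ℝ))⁻¹ := by
    rw [e]
    have : 0 ≤ 1 / ((l : ℝ) - 1) := by
      apply div_nonneg zero_le_one
      linarith
    linarith
  unfold kap
  split_ifs with hd
  · exact ⟨by positivity, le_rfl, e.le⟩
  · exact ⟨by positivity, h3.trans h4, by linarith⟩

lemma Cor_bd (w : ℕ) (h : ℤ) : 0 ≤ Cor w h ∧ Cor w h ≤ (Vz w)⁻¹ := by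
  unfold Cor Vz
  refine ⟨prod_nonneg fun l hl => (kap_bd l (mem_pz.1 hl).2 h).1, ?_⟩
  rw [← prod_inv_distrib]
  exact prod_le_prod (fun l hl => (kap_bd l (mem_pz.1 hl).2 h).1) (fun l hl => (kap_bd l (mem_pz.1 hl).2 h).2.1)

lemma gw_one_le (f : ℤ[X]) (m : ℤ) (w z n : ℕ) : 1 ≤ gw f m (lz w z) n := by
  unfold gw
  refine le_trans (le_of_eq (prod_const_one (s := lz w z)).symm) ?_
  apply prod_le_prod (fun _ _ => zero_le_one) (fun l hl => ?_)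
  have hl2 : (2 : ℝ) ≤ l := by exact_mod_cast (mem_lz.1 hl).1.2.two_le
  split_ifs
  · have : 0 ≤ 1 / ((l : ℝ) - 1) := by
      apply div_nonneg zero_le_one
      linarith
    linarith
  · linarith

lemma Cor_diff (f : ℤ[X]) (m : ℤ) (w z n : ℕ) (h : w ≤ z) :
    Cor z (f.eval (n : ℤ) - m) - Cor w (f.eval (n : ℤ) - m) ≤ (Vz w)⁻¹ * (gw f m (lz w z) n - 1) := by
  classical
  have e1 : Cor z (f.eval (n : ℤ) - m) = Cor w (f.eval (n : ℤ) - m) * ∏ l ∈ lz w z, kap l (f.eval (n : ℤ) - m) := by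
    unfold Cor
    rw [← prod_filter_mul_prod_filter_not (pz z) (fun l => l ≤ w), pz_filter w z h]
    congr 1
    unfold lz
    simp only [not_le]
  have h1 : ∏ l ∈ lz w z, kap l (f.eval (n : ℤ) - m) ≤ gw f m (lz w z) n := by
    unfold gw
    exact prod_le_prod (fun l hl => (kap_bd l (mem_lz.1 hl).1.2 _).1) (fun l hl => (kap_bd l (mem_lz.1 hl).1.2 _).2.2)
  obtain ⟨h2, h3⟩ := Cor_bd w (f.eval (n : ℤ) - m)
  have h4 := gw_one_le f m w z n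
  rw [e1]
  calc Cor w (f.eval (n : ℤ) - m) * ∏ l ∈ lz w z, kap l (f.eval (n : ℤ) - m) - Cor w (f.eval (n : ℤ) - m)
      = Cor w (f.eval (n : ℤ) - m) * (∏ l ∈ lz w z, kap l (f.eval (n : ℤ) - m) - 1) := by ring
    _ ≤ Cor w (f.eval (n : ℤ) - m) * (gw f m (lz w z) n - 1) := mul_le_mul_of_nonneg_left (by linarith) h2
    _ ≤ _ := mul_le_mul_of_nonneg_right h3 (by linarith)

lemma card_pz_up (x : ℕ) (hx : 4 ≤ x) : (#(pz x) : ℝ) ≤ 88 * x / Real.log x := by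
  have h := bt_class 1 0 x le_rfl (by omega) hx
  have e : (pz x).filter (fun p => p % 1 = 0) = pz x := by
    apply filter_true_of_mem
    intro p _
    exact Nat.mod_one p
  rw [e, Nat.totient_one, Nat.cast_one, one_mul] at h
  exact h

/-- the value of `f` at `p` as a natural number -/
def Mf (f : ℤ[X]) (p : ℕ) : ℕ := (f.eval (p : ℤ)).toNat

/-- the difference of the two models -/
noncomputable def Dz (f : ℤ[X]) (S : Finset ℕ) (w z a : ℕ) : ℝ :=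
  ∑ p ∈ S, (lamz z (Mf f p + a) - lamz w (Mf f p + a))

lemma var_raw (f : ℤ[X]) (n0 : ℕ) (hn0 : ∀ n : ℕ, n0 ≤ n → 1 ≤ f.eval (n : ℤ)) (x N w z : ℕ)
    (hwz : w ≤ z) (e0 : ℝ)
    (hpair : ∀ w1 w2 : ℕ, 1 ≤ w1 → w1 ≤ z → 1 ≤ w2 → w2 ≤ z → ∀ M M' : ℕ,
      |∑ a ∈ Icc 1 N, lamz w1 (M + a) * lamz w2 (M' + a) - N * Cor (min w1 w2) ((M : ℤ) - M')| ≤ e0)
    (hw : 1 ≤ w) (T : ℝ) (havg : ∀ m : ℤ, ∑ p ∈ pz x, (gw f m (lz w z) p - 1) ≤ T)
    (S : Finset ℕ) (hS : S ⊆ pz x) (hS0 : ∀ p ∈ S, n0 ≤ p) :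
    ∑ a ∈ Icc 1 N, Dz f S w z a ^ 2 ≤ N * ((Vz w)⁻¹ * (#(pz x) * T)) + 4 * e0 * (#(pz x)) ^ 2 := by
  classical
  have hz : 1 ≤ z := hw.trans hwz
  have e1 : ∑ a ∈ Icc 1 N, Dz f S w z a ^ 2 = ∑ p' ∈ S, ∑ p ∈ S,
      ∑ a ∈ Icc 1 N, (lamz z (Mf f p + a) - lamz w (Mf f p + a)) * (lamz z (Mf f p' + a) - lamz w (Mf f p' + a)) := by
    unfold Dz
    simp only [pow_two, sum_mul_sum]
    rw [sum_comm, sum_comm (s := S) (t := S)]
    apply sum_congr rfl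
    intro p _
    rw [sum_comm]
  have hM : ∀ p ∈ S, ((Mf f p : ℕ) : ℤ) = f.eval (p : ℤ) := by
    intro p hp
    unfold Mf
    exact Int.toNat_of_nonneg (by have := hn0 p (hS0 p hp); omega)
  have e2 : ∀ p' ∈ S, ∀ p ∈ S,
      ∑ a ∈ Icc 1 N, (lamz z (Mf f p + a) - lamz w (Mf f p + a)) * (lamz z (Mf f p' + a) - lamz w (Mf f p' + a)) ≤
      N * ((Vz w)⁻¹ * (gw f (f.eval (p' : ℤ)) (lz w z) p - 1)) + 4 * e0 := by
    intro p' hp' p hp
    have a1 := hpair z z hz le_rfl hz le_rfl (Mf f p) (Mf f p')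
    have a2 := hpair z w hz le_rfl hw hwz (Mf f p) (Mf f p')
    have a3 := hpair w z hw hwz hz le_rfl (Mf f p) (Mf f p')
    have a4 := hpair w w hw hwz hw hwz (Mf f p) (Mf f p')
    rw [min_self, hM p hp, hM p' hp', abs_le] at a1 a4
    rw [min_eq_right hwz, hM p hp, hM p' hp', abs_le] at a2
    rw [min_eq_left hwz, hM p hp, hM p' hp', abs_le] at a3
    have hc := Cor_diff f (f.eval (p' : ℤ)) w z p hwz
    have hc' := mul_le_mul_of_nonneg_left hc (Nat.cast_nonneg (α := ℝ) N)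
    have e3 : ∑ a ∈ Icc 1 N, (lamz z (Mf f p + a) - lamz w (Mf f p + a)) * (lamz z (Mf f p' + a) - lamz w (Mf f p' + a)) =
        ∑ a ∈ Icc 1 N, lamz z (Mf f p + a) * lamz z (Mf f p' + a) - ∑ a ∈ Icc 1 N, lamz z (Mf f p + a) * lamz w (Mf f p' + a) -
        ∑ a ∈ Icc 1 N, lamz w (Mf f p + a) * lamz z (Mf f p' + a) + ∑ a ∈ Icc 1 N, lamz w (Mf f p + a) * lamz w (Mf f p' + a) := by
      rw [← sum_sub_distrib, ← sum_sub_distrib, ← sum_add_distrib]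
      apply sum_congr rfl
      intro a _
      ring
    rw [e3]
    linarith [a1.1, a1.2, a2.1, a2.2, a3.1, a3.2, a4.1, a4.2]
  have he0 : 0 ≤ e0 := (abs_nonneg _).trans (hpair w w hw hwz hw hwz 0 0)
  have hV := (inv_pos.2 (Vz_pos w)).le
  have hSc : (#S : ℝ) ≤ #(pz x) := by exact_mod_cast card_le_card hS
  rw [e1]
  calc _ ≤ ∑ p' ∈ S, ∑ p ∈ S, (N * ((Vz w)⁻¹ * (gw f (f.eval (p' : ℤ)) (lz w z) p - 1)) + 4 * e0) :=
        sum_le_sum fun p' hp' => sum_le_sum fun p hp => e2 p' hp' p hp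
    _ = ∑ p' ∈ S, (N * ((Vz w)⁻¹ * ∑ p ∈ S, (gw f (f.eval (p' : ℤ)) (lz w z) p - 1)) + #S * (4 * e0)) := by
        apply sum_congr rfl
        intro p' _
        rw [sum_add_distrib, sum_const, nsmul_eq_mul, mul_sum, mul_sum]
    _ ≤ ∑ p' ∈ S, (N * ((Vz w)⁻¹ * T) + #S * (4 * e0)) := by
        apply sum_le_sum
        intro p' _
        have h5 : ∑ p ∈ S, (gw f (f.eval (p' : ℤ)) (lz w z) p - 1) ≤ T := by
          refine le_trans ?_ (havg (f.eval (p' : ℤ)))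
          apply sum_le_sum_of_subset_of_nonneg hS
          intro p _ _
          linarith [gw_one_le f (f.eval (p' : ℤ)) w z p]
        have h6 := mul_le_mul_of_nonneg_left (mul_le_mul_of_nonneg_left h5 hV) (Nat.cast_nonneg (α := ℝ) N)
        linarith
    _ = #S * (N * ((Vz w)⁻¹ * T) + #S * (4 * e0)) := by rw [sum_const, nsmul_eq_mul]
    _ ≤ #(pz x) * (N * ((Vz w)⁻¹ * T) + #(pz x) * (4 * e0)) := by
        have hT : 0 ≤ T := by
          refine le_trans ?_ (havg 0)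
          exact sum_nonneg fun p _ => by linarith [gw_one_le f 0 w z p]
        apply mul_le_mul hSc _ (by positivity) (by positivity)
        have := mul_le_mul_of_nonneg_right hSc (by positivity : 0 ≤ 4 * e0)
        linarith
    _ = _ := by ring

end Pool.Agent.H27.AS
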