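import Mathlib
import Pool.Agent.H27.AS.G

/-!
# Arbitrary sets of primes: only the primes up to a constant matter
-/

set_option autoImplicit false

namespace Pool.Agent.H27.AS
open Finset Polynomial Pool.Agent.H373R2.T7

theorem variance (f : ℤ[X]) (hd : 1 ≤ f.natDegree) (B : ℕ) (hB : 1 ≤ B) (ε : ℝ) (hε : 0 < ε) :
    ∃ w0 : ℕ, 1 ≤ w0 ∧ ∀ w : ℕ, w0 ≤ w → ∀ E : ℕ, ∃ x0 : ℕ, ∀ x : ℕ, x0 ≤ x → ∀ N : ℕ, N ≤ B * x ^ f.natDegree →
      x ^ f.natDegree ≤ B * N → ∀ z : ℕ, w ≤ z → (z : ℝ) ≤ Real.log x ^ E →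
      ∀ n0 : ℕ, (∀ n : ℕ, n0 ≤ n → 1 ≤ f.eval (n : ℤ)) → ∀ S : Finset ℕ, S ⊆ pz x → (∀ p ∈ S, n0 ≤ p) →
      ∑ a ∈ Icc 1 N, Dz f S w z a ^ 2 ≤ ε * N * (x / Real.log x) ^ 2 := by
  classical
  have hcc : (0 : ℝ) ≤ cc f := Nat.cast_nonneg _
  obtain ⟨w1, hw1, hV⟩ := V_small (ε / (3 * 88 * 352 * (cc f + 1))) (by positivity)
  refine ⟨w1 + 4 * cc f + 2, by omega, fun w hw E => ?_⟩
  have hVw := hV w (by omega)
  have hV0 := (inv_pos.2 (Vz_pos w)).le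
  obtain ⟨n1, h1⟩ := avg f hd (E + 1) (by omega)
  obtain ⟨n2, h2⟩ := pair (E + 1) 1
  obtain ⟨n3, h3⟩ := size_log f.natDegree B hB
  obtain ⟨n4, h4⟩ := ev_L' (2 * 2 ^ E)
  obtain ⟨n5, h5⟩ := ev_L' (264 * (Vz w)⁻¹ / ε)
  obtain ⟨n6, h6⟩ := ev_L' (185856 / ε)
  obtain ⟨n7, h7⟩ := ev_L' 1
  refine ⟨n1 + B * n2 + n3 + n4 + n5 + n6 + n7 + 4, fun x hx N hN1 hN2 z hwz hz n0 hn0 S hS hS0 => ?_⟩
  have b4 := h4 x (by omega)
  have b5 := h5 x (by omega)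
  have b6 := h6 x (by omega)
  have b7 := h7 x (by omega)
  obtain ⟨c1, c2, c3⟩ := h3 x (by omega) f.natDegree N hd le_rfl hN1 hN2
  have hNn2 : n2 ≤ N := by
    have : B * n2 ≤ B * N := le_trans (by omega) c3
    exact Nat.le_of_mul_le_mul_left this (by omega)
  have hx0 : (0 : ℝ) < x := by exact_mod_cast (by omega : 0 < x)
  have hcard := card_pz_up x (by omega)
  have hav := h1 x (by omega) w z (by omega) (hz.trans (pow_le_pow_right₀ b7 (by omega)))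
  have hLN : 2 ^ E ≤ Real.log N := by linarith
  have hLN0 : 0 < Real.log N := lt_of_lt_of_le (by positivity) hLN
  have hzN : (z : ℝ) ≤ Real.log N ^ (E + 1) := by
    refine hz.trans ?_
    calc Real.log x ^ E ≤ (2 * Real.log N) ^ E := pow_le_pow_left₀ (by linarith) (by linarith) E
      _ = 2 ^ E * Real.log N ^ E := mul_pow _ _ _
      _ ≤ Real.log N * Real.log N ^ E := mul_le_mul_of_nonneg_right hLN (by positivity)
      _ = _ := by ring
  have hp := fun w1 w2 a1 a2 a3 a4 M M' => h2 N hNn2 z (by omega) hzN w1 w2 a1 a2 a3 a4 M M'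
  have hmain := var_raw f n0 hn0 x N w z hwz (N / Real.log N ^ 1) hp (by omega) _ hav S hS hS0
  refine hmain.trans ?_
  rw [pow_one]
  generalize Real.log (x : ℝ) = L at *
  have hL0 : 0 < L := by linarith
  have hw0 : (0 : ℝ) < w := by exact_mod_cast (by omega : 0 < w)
  have hN0 : (0 : ℝ) ≤ N := Nat.cast_nonneg _
  have hT0 : 0 ≤ 352 * cc f / w * (x / L) + x / L ^ 2 := by positivity
  have hpz0 : (0 : ℝ) ≤ #(pz x) := Nat.cast_nonneg _
  have i1 : N * ((Vz w)⁻¹ * (#(pz x) * (352 * cc f / w * (x / L) + x / L ^ 2))) ≤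
      N * ((Vz w)⁻¹ * ((88 * x / L) * (352 * cc f / w * (x / L) + x / L ^ 2))) := by gcongr
  have i2 : N * ((Vz w)⁻¹ * ((88 * x / L) * (352 * cc f / w * (x / L) + x / L ^ 2))) =
      (88 * 352 * cc f * ((Vz w)⁻¹ / w) + 88 * (Vz w)⁻¹ / L) * N * (x / L) ^ 2 := by
    field_simp
  have i3 : 88 * 352 * cc f * ((Vz w)⁻¹ / w) ≤ ε / 3 := by
    have j1 : (Vz w)⁻¹ / w ≤ ε / (3 * 88 * 352 * (cc f + 1)) := by
      rw [div_le_iff₀ hw0]
      exact hVw
    calc 88 * 352 * cc f * ((Vz w)⁻¹ / w) ≤ 88 * 352 * cc f * (ε / (3 * 88 * 352 * (cc f + 1))) :=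
          mul_le_mul_of_nonneg_left j1 (by positivity)
      _ = (ε / 3) * (cc f / (cc f + 1)) := by field_simp
      _ ≤ (ε / 3) * 1 := by
          apply mul_le_mul_of_nonneg_left _ (by positivity)
          rw [div_le_one (by positivity)]
          linarith
      _ = ε / 3 := mul_one _
  have i4 : 88 * (Vz w)⁻¹ / L ≤ ε / 3 := by
    rw [div_le_iff₀ hε] at b5
    rw [div_le_iff₀ hL0]
    linarith
  have i5 : 4 * (N / Real.log N) * (#(pz x) : ℝ) ^ 2 ≤ (ε / 3) * N * (x / L) ^ 2 := by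
    have j1 : (N : ℝ) / Real.log N ≤ N / (L / 2) := div_le_div_of_nonneg_left hN0 (by linarith) c1
    have j2 : (#(pz x) : ℝ) ^ 2 ≤ (88 * x / L) ^ 2 := pow_le_pow_left₀ hpz0 hcard 2
    calc 4 * (N / Real.log N) * (#(pz x) : ℝ) ^ 2 ≤ 4 * (N / (L / 2)) * (88 * x / L) ^ 2 := by gcongr
      _ = (61952 / L) * N * (x / L) ^ 2 := by ring
      _ ≤ (ε / 3) * N * (x / L) ^ 2 := by
          have j3 : 61952 / L ≤ ε / 3 := by
            rw [div_le_iff₀ hε] at b6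
            rw [div_le_iff₀ hL0]
            linarith
          gcongr
  have i6 : (88 * 352 * cc f * ((Vz w)⁻¹ / w) + 88 * (Vz w)⁻¹ / L) * N * (x / L) ^ 2 ≤ (ε / 3 + ε / 3) * N * (x / L) ^ 2 := by
    gcongr
  calc _ ≤ (ε / 3 + ε / 3) * N * (x / L) ^ 2 + (ε / 3) * N * (x / L) ^ 2 := by
        refine add_le_add ?_ i5
        rw [i2] at i1
        exact i1.trans i6
    _ = _ := by ring

/-- the number of the `p` in `S` with `f(p) + a` prime -/
noncomputable def cnt (f : ℤ[X]) (S : Finset ℕ) (a : ℕ) : ℕ := #(S.filter (fun p : ℕ => (f.eval (p : ℤ) + a).toNat.Prime))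

/-- the number of the `p` in `S` for which `f(p) + a` has no prime factor `≤ w` -/
noncomputable def rgh (f : ℤ[X]) (S : Finset ℕ) (w a : ℕ) : ℕ := by
  classical exact #(S.filter (fun p : ℕ => ∀ l ∈ primes w, ¬ (l : ℤ) ∣ f.eval (p : ℤ) + a))

lemma Xw_eq (f : ℤ[X]) (n0 : ℕ) (hn0 : ∀ n : ℕ, n0 ≤ n → 1 ≤ f.eval (n : ℤ)) (S : Finset ℕ) (hS : ∀ p ∈ S, n0 ≤ p) (w a : ℕ) :
    ∑ p ∈ S, lamz w (Mf f p + a) = (Vz w)⁻¹ * rgh f S w a := by
  classical
  unfold rgh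
  rw [mul_comm, ← nsmul_eq_mul, ← sum_const, sum_filter]
  apply sum_congr rfl
  intro p hp
  unfold lamz
  have hM : ((Mf f p : ℕ) : ℤ) = f.eval (p : ℤ) := by
    unfold Mf
    exact Int.toNat_of_nonneg (by have := hn0 p (hS p hp); omega)
  have h : (∀ l ∈ pz w, ¬ l ∣ Mf f p + a) ↔ ∀ l ∈ primes w, ¬ (l : ℤ) ∣ f.eval (p : ℤ) + a := by
    apply forall₂_congr
    intro l _
    rw [← hM, ← Int.natCast_dvd_natCast]
    push_cast
    rfl
  by_cases h1 : ∀ l ∈ pz w, ¬ l ∣ Mf f p + a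
  · rw [if_pos h1, if_pos (h.1 h1)]
  · rw [if_neg h1, if_neg (fun h2 => h1 (h.2 h2))]

lemma drop_small (n0 : ℕ) (S : Finset ℕ) (P : ℕ → Prop) [DecidablePred P] (hS : ∀ p ∈ S, 1 ≤ p) :
    (#((S.filter (fun p => n0 ≤ p)).filter P) : ℝ) ≤ #(S.filter P) ∧
    (#(S.filter P) : ℝ) ≤ #((S.filter (fun p => n0 ≤ p)).filter P) + n0 := by
  classical
  constructor
  · have : (S.filter (fun p => n0 ≤ p)).filter P ⊆ S.filter P := by
      intro p hp
      rw [mem_filter, mem_filter] at hp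
      exact mem_filter.2 ⟨hp.1.1, hp.2⟩
    exact_mod_cast card_le_card this
  · have : S.filter P ⊆ (S.filter (fun p => n0 ≤ p)).filter P ∪ Icc 1 n0 := by
      intro p hp
      rw [mem_filter] at hp
      rw [mem_union, mem_filter, mem_filter, mem_Icc]
      rcases Nat.lt_or_ge p n0 with h | h
      · exact Or.inr ⟨hS p hp.1, h.le⟩
      · exact Or.inl ⟨⟨hp.1, h⟩, hp.2⟩
    have h2 := (card_le_card this).trans (card_union_le _ _)
    rw [Nat.card_Icc, Nat.add_sub_cancel] at h2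
    exact_mod_cast h2

end Pool.Agent.H27.AS
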