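import Mathlib
import Pool.Agent.H27.AS.H
import Pool.Graph.R_seed8.H373R2.T7.Sys8

/-!
# Arbitrary sets of primes: only the primes up to a constant matter, the theorem
-/

set_option autoImplicit false

namespace Pool.Agent.H27.AS
open Finset Polynomial Pool.Agent.H373R2.T7

lemma ps_one (f : ℤ[X]) (n0 : ℕ) (hn0 : ∀ n : ℕ, n0 ≤ n → 1 ≤ f.eval (n : ℤ)) (S : Finset ℕ) (x : ℕ) (hS : S ⊆ pz x)
    (hS0 : ∀ p ∈ S, n0 ≤ p) (z a : ℕ) :
    ps (fun _ : Fin 1 => f) (fun _ => a) z S x =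
      ∑ p ∈ S, lamP (f.eval (p : ℤ) + a) - ∑ p ∈ S, lamz z (Mf f p + a) := by
  classical
  unfold ps
  have e : (Icc 1 x).filter (fun n => n ∈ S) = S := by
    ext n
    rw [mem_filter, mem_Icc]
    constructor
    · exact fun h => h.2
    · intro h
      have h1 := mem_pz.1 (hS h)
      exact ⟨⟨h1.2.one_le, h1.1⟩, h⟩
  rw [e, ← sum_sub_distrib]
  apply sum_congr rfl
  intro p hp
  have h1 := hn0 p (hS0 p hp)
  unfold cw
  rw [Fin.prod_univ_one, Fin.prod_univ_one]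
  have e1 : vl (fun _ : Fin 1 => f) (fun _ => 1) (fun _ => a) 0 p = f.eval (p : ℤ) + a := by
    unfold vl
    ring
  rw [e1]
  congr 1
  unfold lamzI
  rw [if_pos (by omega)]
  congr 1
  unfold Mf
  omega

lemma term_log (f : ℤ[X]) (hd : 1 ≤ f.natDegree) (n0 : ℕ) (hn0 : ∀ n : ℕ, n0 ≤ n → 1 ≤ f.eval (n : ℤ)) (B x N : ℕ)
    (hB : 1 ≤ B) (hN : N ≤ B * x ^ f.natDegree) (p a : ℕ) (hp : p ∈ Icc 1 x) (hpn : n0 ≤ p) (ha : a ∈ Icc 1 N) (L δ : ℝ)
    (hLx : Real.log x = L) (hL : 1 ≤ L) (hδ : 0 ≤ δ) (hlow : (x : ℝ) ^ f.natDegree / L ≤ a) (h1 : Real.log L ≤ δ * L)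
    (h2 : Real.log (cst (fun _ : Fin 1 => f) B) ≤ δ * L) :
    |(f.natDegree * L) * (if (f.eval (p : ℤ) + a).toNat.Prime then (1 : ℝ) else 0) - lamP (f.eval (p : ℤ) + a)| ≤
      δ * ((f.natDegree * L) * (if (f.eval (p : ℤ) + a).toNat.Prime then (1 : ℝ) else 0)) := by
  have hx0 : (0 : ℝ) < x := by
    rw [mem_Icc] at hp
    exact_mod_cast (by omega : 0 < x)
  have hL0 : 0 < L := by linarith
  unfold lamP
  split_ifs with h
  · rw [mul_one]
    have hv : 2 ≤ f.eval (p : ℤ) + a := by have := h.two_le; omega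
    have hcst : 1 ≤ cst (fun _ : Fin 1 => f) B := by unfold cst; omega
    have hcstr : (1 : ℝ) ≤ cst (fun _ : Fin 1 => f) B := by exact_mod_cast hcst
    have e : (((f.eval (p : ℤ) + a).toNat : ℕ) : ℝ) = ((f.eval (p : ℤ) + a : ℤ) : ℝ) := by
      have h3 : (((f.eval (p : ℤ) + a).toNat : ℕ) : ℤ) = f.eval (p : ℤ) + a := Int.toNat_of_nonneg (by omega)
      exact_mod_cast congrArg (fun t : ℤ => (t : ℝ)) h3
    rw [e]
    have hvr : (2 : ℝ) ≤ ((f.eval (p : ℤ) + a : ℤ) : ℝ) := by exact_mod_cast hv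
    have hva : (a : ℝ) ≤ ((f.eval (p : ℤ) + a : ℤ) : ℝ) := by
      have h3 := hn0 p hpn
      have : (a : ℤ) ≤ f.eval (p : ℤ) + a := by omega
      exact_mod_cast this
    have hup : ((f.eval (p : ℤ) + a : ℤ) : ℝ) ≤ cst (fun _ : Fin 1 => f) B * (x : ℝ) ^ f.natDegree := by
      have h5 := vl_le' (fun _ : Fin 1 => f) (fun _ => 1) (fun _ => Or.inl rfl) B x 0 N hN p a hp ha
      have h6 : f.eval (p : ℤ) + a ≤ ((cst (fun _ : Fin 1 => f) B * x ^ f.natDegree : ℕ) : ℤ) := by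
        refine le_trans (le_of_eq ?_) h5
        ring
      have h7 : ((f.eval (p : ℤ) + a : ℤ) : ℝ) ≤ (((cst (fun _ : Fin 1 => f) B * x ^ f.natDegree : ℕ) : ℤ) : ℝ) := by
        exact_mod_cast h6
      push_cast at h7 ⊢
      exact h7
    have g1 := Real.log_le_log (by linarith) hup
    rw [Real.log_mul (by linarith) (by positivity), Real.log_pow, hLx] at g1
    have g2 := Real.log_le_log (by positivity) (hlow.trans hva)
    rw [Real.log_div (by positivity) (by positivity), Real.log_pow, hLx] at g2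
    have hdr : (1 : ℝ) ≤ f.natDegree := by exact_mod_cast hd
    have g3 : δ * L ≤ δ * (f.natDegree * L) := by
      apply mul_le_mul_of_nonneg_left _ hδ
      nlinarith
    rw [abs_le]
    constructor <;> linarith
  · simp

lemma markov2 (s : Finset ℕ) (D : ℕ → ℝ) (t V : ℝ) (ht : 0 < t) (h : ∑ a ∈ s, D a ^ 2 ≤ V) :
    (#(s.filter (fun a => t < |D a|)) : ℝ) ≤ V / t ^ 2 := by
  rw [le_div_iff₀ (by positivity), ← nsmul_eq_mul, ← sum_const]
  refine le_trans ?_ h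
  refine le_trans (sum_le_sum (g := fun a => D a ^ 2) fun a ha => ?_) (sum_le_sum_of_subset_of_nonneg (filter_subset _ _) (fun a _ _ => sq_nonneg _))
  rw [← sq_abs (D a)]
  exact pow_le_pow_left₀ ht.le (mem_filter.1 ha).2.le 2

theorem part2a (f : ℤ[X]) (hd : 1 ≤ f.natDegree) (hl : 0 < f.leadingCoeff) (B : ℕ) (hB : 1 ≤ B) (ε : ℝ) (hε : 0 < ε)
    (hε1 : ε ≤ 1) :
    ∃ w0 : ℕ, ∀ w : ℕ, w0 ≤ w → ∃ x0 : ℕ, ∀ x : ℕ, x0 ≤ x → ∀ N : ℕ, N ≤ B * x ^ f.natDegree →
      x ^ f.natDegree ≤ B * N → ∀ S : Finset ℕ, S ⊆ pz x →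
      ∃ Bad ⊆ Icc 1 N, (#Bad : ℝ) ≤ ε * N ∧ ∀ a ∈ Icc 1 N, a ∉ Bad →
        |f.natDegree * Real.log x * cnt f S a - (Vz w)⁻¹ * rgh f S w a| ≤ ε * (x / Real.log x) := by
  classical
  obtain ⟨n0, hn0, -⟩ := ev_two f hd hl
  obtain ⟨η, hη⟩ : ∃ η : ℝ, η = ε / 6 := ⟨_, rfl⟩
  have hη0 : 0 < η := by rw [hη]; positivity
  have hη1 : η ≤ 1 := by rw [hη]; linarith
  obtain ⟨w0, hw01, hvar⟩ := variance f hd B hB (η ^ 3) (by positivity)
  refine ⟨w0, fun w hw => ?_⟩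
  have hV0 := (inv_pos.2 (Vz_pos w)).le
  obtain ⟨V, hVd⟩ : ∃ V : ℝ, V = (Vz w)⁻¹ := ⟨_, rfl⟩
  obtain ⟨δ, hδ⟩ : ∃ δ : ℝ, δ = η / (4 * (88 * V + 2)) := ⟨_, rfl⟩
  rw [← hVd] at hV0
  have hδ0 : 0 < δ := by rw [hδ]; positivity
  have hδ1 : δ ≤ 1 / 2 := by
    rw [hδ, div_le_div_iff₀ (by positivity) (by norm_num)]
    nlinarith
  obtain ⟨B0, hB0⟩ := unif (fun _ : Fin 1 => f) (fun _ => hd) (fun _ => hl) B hB 0 2
  obtain ⟨n1, h1⟩ := hB0 (B0 + 2)
  obtain ⟨n2, h2⟩ := hvar w hw (B0 + 2)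
  obtain ⟨n3, h3⟩ := ev_L' (w + 2)
  obtain ⟨n4, h4⟩ := ev_loglog 1 δ hδ0
  obtain ⟨n5, h5⟩ := ev_L' (Real.log (cst (fun _ : Fin 1 => f) B) / δ)
  obtain ⟨n6, h6⟩ := ev_L' ((B + 1) / η)
  obtain ⟨n7, h7⟩ := ev_log' 2 ((f.natDegree * n0 + V * n0) / η)
  obtain ⟨n8, h8⟩ := ev_L' 1
  refine ⟨n1 + n2 + n3 + n4 + n5 + n6 + n7 + n8 + 4, fun x hx N hN1 hN2 S hS => ?_⟩
  have b3 := h3 x (by omega)
  have b4 := h4 x (by omega)
  have b5 := h5 x (by omega)
  have b6 := h6 x (by omega)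
  have b7 := h7 x (by omega)
  obtain ⟨S1, hS1⟩ : ∃ S1 : Finset ℕ, S1 = S.filter (fun p => n0 ≤ p) := ⟨_, rfl⟩
  have hS1p : S1 ⊆ pz x := by rw [hS1]; exact (filter_subset _ _).trans hS
  have hS1n : ∀ p ∈ S1, n0 ≤ p := by rw [hS1]; exact fun p hp => (mem_filter.1 hp).2
  obtain ⟨z, hz⟩ : ∃ z : ℕ, z = ⌈Real.log x ^ (B0 + 1)⌉₊ := ⟨_, rfl⟩
  have hL2 : 2 ≤ Real.log x := by
    have : (0 : ℝ) ≤ w := Nat.cast_nonneg _
    linarith
  have hz1 : Real.log x ^ (B0 + 1) ≤ z := by rw [hz]; exact Nat.le_ceil _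
  have hz2 : (z : ℝ) ≤ Real.log x ^ (B0 + 2) := by
    have h9 : (z : ℝ) < Real.log x ^ (B0 + 1) + 1 := by rw [hz]; exact Nat.ceil_lt_add_one (by positivity)
    have h10 : 1 ≤ Real.log x ^ (B0 + 1) := one_le_pow₀ (by linarith)
    have h11 : Real.log x ^ (B0 + 2) = Real.log x * Real.log x ^ (B0 + 1) := by ring
    nlinarith
  have hz3 : Real.log x ^ B0 ≤ z := le_trans (pow_le_pow_right₀ (by linarith) (by omega)) hz1
  have hwz : w ≤ z := by
    have h9 : Real.log x ≤ Real.log x ^ (B0 + 1) := le_self_pow₀ (by linarith) (by omega)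
    have : (w : ℝ) ≤ z := by linarith
    exact_mod_cast this
  have hbox : (Fintype.piFinset (fun _ : Fin 1 => Icc 1 N)).Nonempty ∨ True := Or.inr trivial
  obtain ⟨Bad1, hb1, hb2, hb3⟩ := h1 x (by omega) (fun _ => N) (fun _ => ⟨hN1, hN2⟩) z hz3 hz2 {S1} (by simp)
  have hv := h2 x (by omega) N hN1 hN2 z hwz hz2 n0 hn0 S1 hS1p hS1n
  have hcard := card_pz_up x (by omega)
  have hx0 : (0 : ℝ) < x := by exact_mod_cast (by omega : 0 < x)
  have hx1 : (1 : ℝ) ≤ x := by exact_mod_cast (by omega : 1 ≤ x)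
  have hlogs := fun p a hp hpn ha hlow => term_log f hd n0 hn0 B x N hB hN1 p a hp hpn ha (Real.log x) δ rfl (by linarith)
    hδ0.le hlow (by simpa using b4) (by rw [div_le_iff₀ hδ0] at b5; linarith)
  have hN0 : (0 : ℝ) ≤ N := Nat.cast_nonneg _
  have hVd2 : Vz w = V⁻¹ := by rw [hVd, inv_inv]
  generalize hLx : Real.log (x : ℝ) = L at *
  have hL0 : 0 < L := by linarith
  have hxL : 0 < x / L := by positivity
  refine ⟨((Icc 1 N).filter (fun a => (fun _ : Fin 1 => a) ∈ Bad1) ∪ (Icc 1 N).filter (fun a => η * (x / L) < |Dz f S1 w z a|)) ∪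
    (Icc 1 N).filter (fun a : ℕ => (a : ℝ) < (x : ℝ) ^ f.natDegree / L), ?_, ?_, ?_⟩
  · exact union_subset (union_subset (filter_subset _ _) (filter_subset _ _)) (filter_subset _ _)
  · have k1 : (#((Icc 1 N).filter (fun a => (fun _ : Fin 1 => a) ∈ Bad1)) : ℝ) ≤ η * N := by
      have j1 : #((Icc 1 N).filter (fun a => (fun _ : Fin 1 => a) ∈ Bad1)) ≤ #Bad1 := by
        apply card_le_card_of_injOn (fun a => (fun _ : Fin 1 => a))
        · intro a ha
          rw [mem_coe, mem_filter] at ha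
          exact ha.2
        · intro a _ a' _ h
          exact congrFun h 0
      have j2 : (#Bad1 : ℝ) ≤ N / L ^ 2 := by
        refine hb2.trans (le_of_eq ?_)
        rw [Fin.prod_univ_one]
      have j3 : (N : ℝ) / L ^ 2 ≤ η * N := by
        rw [div_le_iff₀ (by positivity)]
        rw [div_le_iff₀ hη0] at b6
        have hBr : (0 : ℝ) ≤ B := Nat.cast_nonneg _
        have j4 : 1 ≤ η * L ^ 2 := by nlinarith
        calc (N : ℝ) = 1 * N := (one_mul _).symm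
          _ ≤ (η * L ^ 2) * N := mul_le_mul_of_nonneg_right j4 hN0
          _ = _ := by ring
      have j5 : (#((Icc 1 N).filter (fun a => (fun _ : Fin 1 => a) ∈ Bad1)) : ℝ) ≤ (#Bad1 : ℝ) := by exact_mod_cast j1
      linarith
    have k2 : (#((Icc 1 N).filter (fun a => η * (x / L) < |Dz f S1 w z a|)) : ℝ) ≤ η * N := by
      refine (markov2 _ _ (η * (x / L)) _ (by positivity) hv).trans (le_of_eq ?_)
      field_simp
    have k3 : (#((Icc 1 N).filter (fun a : ℕ => (a : ℝ) < (x : ℝ) ^ f.natDegree / L)) : ℝ) ≤ η * N := by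
      have j1 : #((Icc 1 N).filter (fun a : ℕ => (a : ℝ) < (x : ℝ) ^ f.natDegree / L)) ≤ ⌊(x : ℝ) ^ f.natDegree / L⌋₊ := by
        calc _ ≤ #(Icc 1 ⌊(x : ℝ) ^ f.natDegree / L⌋₊) := by
              apply card_le_card
              intro a ha
              rw [mem_filter, mem_Icc] at ha
              rw [mem_Icc]
              exact ⟨ha.1.1, Nat.le_floor ha.2.le⟩
          _ = _ := by rw [Nat.card_Icc, Nat.add_sub_cancel]
      have j2 : (#((Icc 1 N).filter (fun a : ℕ => (a : ℝ) < (x : ℝ) ^ f.natDegree / L)) : ℝ) ≤ (x : ℝ) ^ f.natDegree / L :=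
        (by exact_mod_cast j1 : _ ≤ ((⌊(x : ℝ) ^ f.natDegree / L⌋₊ : ℕ) : ℝ)).trans (Nat.floor_le (by positivity))
      have j3 : (x : ℝ) ^ f.natDegree ≤ B * N := by exact_mod_cast hN2
      refine j2.trans ?_
      rw [div_le_iff₀ hL0]
      rw [div_le_iff₀ hη0] at b6
      have j4 : (B : ℝ) ≤ L * η := by linarith
      calc (x : ℝ) ^ f.natDegree ≤ B * N := j3
        _ ≤ (L * η) * N := mul_le_mul_of_nonneg_right j4 hN0
        _ = _ := by ring
    have k4 : (#(((Icc 1 N).filter (fun a => (fun _ : Fin 1 => a) ∈ Bad1) ∪ (Icc 1 N).filter (fun a => η * (x / L) < |Dz f S1 w z a|)) ∪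
        (Icc 1 N).filter (fun a : ℕ => (a : ℝ) < (x : ℝ) ^ f.natDegree / L)) : ℝ) ≤
        #((Icc 1 N).filter (fun a => (fun _ : Fin 1 => a) ∈ Bad1)) + #((Icc 1 N).filter (fun a => η * (x / L) < |Dz f S1 w z a|)) +
        #((Icc 1 N).filter (fun a : ℕ => (a : ℝ) < (x : ℝ) ^ f.natDegree / L)) := by
      have := (card_union_le ((Icc 1 N).filter (fun a => (fun _ : Fin 1 => a) ∈ Bad1) ∪ (Icc 1 N).filter (fun a => η * (x / L) < |Dz f S1 w z a|))
        ((Icc 1 N).filter (fun a : ℕ => (a : ℝ) < (x : ℝ) ^ f.natDegree / L))).trans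
        (Nat.add_le_add_right (card_union_le _ _) _)
      exact_mod_cast this
    have k5 : η * N + η * N + η * N ≤ ε * N := by
      rw [hη]
      nlinarith
    linarith
  · intro a ha haB
    rw [mem_union, mem_union, not_or, not_or, mem_filter, mem_filter, mem_filter, not_and, not_and, not_and, not_lt, not_lt] at haB
    obtain ⟨⟨g1, g2⟩, g3⟩ := haB
    have g1' := g1 ha
    have g2' := g2 ha
    have g3' := g3 ha
    have hps := hb3 (fun _ => a) (Fintype.mem_piFinset.2 fun _ => ha) g1' S1 (mem_singleton_self _) x le_rfl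
    rw [ps_one f n0 hn0 S1 x hS1p hS1n z a] at hps
    -- the objects
    obtain ⟨Wt, hWt⟩ : ∃ Wt : ℝ, Wt = ∑ p ∈ S1, lamP (f.eval (p : ℤ) + a) := ⟨_, rfl⟩
    obtain ⟨Xz, hXz⟩ : ∃ Xz : ℝ, Xz = ∑ p ∈ S1, lamz z (Mf f p + a) := ⟨_, rfl⟩
    have hDz : Dz f S1 w z a = Xz - V * rgh f S1 w a := by
      unfold Dz
      rw [sum_sub_distrib, ← hXz, Xw_eq f n0 hn0 S1 hS1n w a, ← hVd]
    rw [← hWt, ← hXz] at hps
    rw [hDz] at g2'
    have hcnt : (cnt f S1 a : ℝ) = ∑ p ∈ S1, (if (f.eval (p : ℤ) + a).toNat.Prime then (1 : ℝ) else 0) := by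
      unfold cnt
      rw [← sum_filter, sum_const, nsmul_eq_mul, mul_one]
    have hW : |f.natDegree * L * cnt f S1 a - Wt| ≤ δ * (f.natDegree * L * cnt f S1 a) := by
      rw [hcnt, hWt, mul_sum, ← sum_sub_distrib, mul_sum]
      refine (abs_sum_le_sum_abs _ _).trans (sum_le_sum fun p hp => ?_)
      have h9 := mem_pz.1 (hS1p hp)
      exact hlogs p a (mem_Icc.2 ⟨h9.2.one_le, h9.1⟩) (hS1n p hp) ha g3'
    have hd1 := drop_small n0 S (fun p : ℕ => (f.eval (p : ℤ) + a).toNat.Prime) (fun p hp => (mem_pz.1 (hS hp)).2.one_le)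
    have hd2 := drop_small n0 S (fun p : ℕ => ∀ l ∈ primes w, ¬ (l : ℤ) ∣ f.eval (p : ℤ) + a) (fun p hp => (mem_pz.1 (hS hp)).2.one_le)
    rw [← hS1] at hd1 hd2
    have q1 : (cnt f S1 a : ℝ) ≤ cnt f S a ∧ (cnt f S a : ℝ) ≤ cnt f S1 a + n0 := hd1
    have q2 : (rgh f S1 w a : ℝ) ≤ rgh f S w a ∧ (rgh f S w a : ℝ) ≤ rgh f S1 w a + n0 := by
      unfold rgh
      exact_mod_cast hd2
    have q3 : (rgh f S1 w a : ℝ) ≤ 88 * x / L := by
      refine le_trans ?_ hcard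
      have : rgh f S1 w a ≤ #(pz x) := by
        unfold rgh
        exact (card_filter_le _ _).trans (card_le_card hS1p)
      exact_mod_cast this
    have hcn : (0 : ℝ) ≤ cnt f S1 a := Nat.cast_nonneg _
    have hrn : (0 : ℝ) ≤ rgh f S1 w a := Nat.cast_nonneg _
    generalize (cnt f S1 a : ℝ) = c1 at *
    generalize (cnt f S a : ℝ) = c2 at *
    generalize (rgh f S1 w a : ℝ) = r1 at *
    generalize (rgh f S w a : ℝ) = r2 at *
    have hdr : (1 : ℝ) ≤ f.natDegree := by exact_mod_cast hd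
    generalize (f.natDegree : ℝ) = dd at *
    have hn0r : (0 : ℝ) ≤ n0 := Nat.cast_nonneg _
    have hBr : (0 : ℝ) ≤ B := Nat.cast_nonneg _
    -- sizes
    have s1 : x / L ^ 2 ≤ η * (x / L) := by
      have : (1 : ℝ) ≤ η * L := by
        rw [div_le_iff₀ hη0] at b6
        linarith
      calc x / L ^ 2 = 1 * (x / L ^ 2) := (one_mul _).symm
        _ ≤ (η * L) * (x / L ^ 2) := mul_le_mul_of_nonneg_right this (by positivity)
        _ = _ := by field_simp
    have s2 : dd * L * n0 + V * n0 ≤ η * (x / L) := by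
      have t1 : √(x : ℝ) ≤ x := by
        rw [Real.sqrt_le_left hx0.le]
        nlinarith
      have t2 := b7.trans t1
      rw [mul_div_assoc', le_div_iff₀ hL0]
      rw [div_mul_eq_mul_div, div_le_iff₀ hη0] at t2
      have t3 : V * n0 * L ≤ V * n0 * L ^ 2 := by
        apply mul_le_mul_of_nonneg_left _ (by positivity)
        nlinarith
      nlinarith
    have s3 : |Wt - Xz| ≤ η * (x / L) := hps.trans s1
    have s4 : Wt ≤ (88 * V + 2) * (x / L) := by
      have t1 := (abs_le.1 s3).2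
      have t2 := (abs_le.1 g2').2
      have t3 : V * r1 ≤ V * (88 * x / L) := mul_le_mul_of_nonneg_left q3 hV0
      have t4 : V * (88 * x / L) = 88 * V * (x / L) := by ring
      have t5 : η * (x / L) ≤ 1 * (x / L) := mul_le_mul_of_nonneg_right hη1 hxL.le
      nlinarith
    have s5 : δ * (dd * L * c1) ≤ η * (x / L) := by
      have t1 := (abs_le.1 hW).2
      have t2 : dd * L * c1 ≤ 2 * Wt := by
        have : δ * (dd * L * c1) ≤ (1 / 2) * (dd * L * c1) := mul_le_mul_of_nonneg_right hδ1 (by positivity)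
        linarith
      calc δ * (dd * L * c1) ≤ δ * (2 * ((88 * V + 2) * (x / L))) :=
            mul_le_mul_of_nonneg_left (t2.trans (by linarith)) hδ0.le
        _ = (η / 2) * (x / L) := by
            rw [hδ]
            field_simp
            ring
        _ ≤ η * (x / L) := mul_le_mul_of_nonneg_right (by linarith) hxL.le
    have s6 : dd * L * c2 ≤ dd * L * c1 + dd * L * n0 := by
      have := mul_le_mul_of_nonneg_left q1.2 (by positivity : 0 ≤ dd * L)
      linarith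
    have s7 : dd * L * c1 ≤ dd * L * c2 := mul_le_mul_of_nonneg_left q1.1 (by positivity)
    have s8 : V * r2 ≤ V * r1 + V * n0 := by
      have := mul_le_mul_of_nonneg_left q2.2 hV0
      linarith
    have s9 : V * r1 ≤ V * r2 := mul_le_mul_of_nonneg_left q2.1 hV0
    have s10 : 0 ≤ dd * L * n0 := by positivity
    have s11 : 0 ≤ V * n0 := by positivity
    have hη6 : ε * (x / L) = 6 * (η * (x / L)) := by rw [hη]; ring
    rw [hη6, ← hVd, abs_le]
    have u1 := abs_le.1 (hW.trans s5)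
    have u2 := abs_le.1 s3
    have u3 := abs_le.1 g2'
    have hpos : 0 ≤ η * (x / L) := by positivity
    constructor <;> linarith [u1.1, u1.2, u2.1, u2.2, u3.1, u3.2]

end Pool.Agent.H27.AS
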