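import Mathlib
import Pool.Agent.H27.AS.I

/-!
# Sets of primes which are equidistributed modulo every integer
-/

set_option autoImplicit false

namespace Pool.Agent.H27.AS
open Finset Polynomial Pool.Agent.H373R2.T7 Filter Topology

open Classical in
/-- the primes `p ≤ x` in `Pp` -/
noncomputable def upto (Pp : Set ℕ) (x : ℕ) : Finset ℕ := (primes x).filter (fun p => p ∈ Pp)

/-- `Pp` has the relative density `ρ` in every reduced residue class: the number of the primes `p ≤ x` in `Pp` with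
`p ≡ r (mod q)` is `(ρ + o(1)) x / (φ(q) log x)` for all `q ≥ 1` and `r` prime to `q` -/
def Equi (Pp : Set ℕ) (ρ : ℝ) : Prop := ∀ q r : ℕ, 1 ≤ q → Nat.Coprime r q →
  Tendsto (fun x : ℕ => (#((upto Pp x).filter (fun p => p % q = r % q)) : ℝ) / (x / Real.log x)) atTop
    (𝓝 (ρ / Nat.totient q))

/-- the number of zeros of `r (f(r) + a)` modulo `l` -/
def zer (f : ℤ[X]) (a l : ℕ) : ℕ := #((range l).filter (fun r : ℕ => (l : ℤ) ∣ (r : ℤ) * (f.eval (r : ℤ) + a)))

/-- the product over the primes `≤ w` of the local factors of the system `p`, `f(p) + a` -/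
noncomputable def sing (f : ℤ[X]) (w a : ℕ) : ℝ := ∏ l ∈ primes w, (1 - (zer f a l : ℝ) / l) / (1 - 1 / (l : ℝ)) ^ 2

lemma per' (f : ℤ[X]) (a l n : ℕ) : ((l : ℤ) ∣ f.eval ((n % l : ℕ) : ℤ) + a) ↔ (l : ℤ) ∣ f.eval (n : ℤ) + a := by
  have := per f (-(a : ℤ)) l n
  simpa only [sub_neg_eq_add] using this

open Classical in
/-- the residues modulo `W` -/
noncomputable def RR (f : ℤ[X]) (w a : ℕ) : Finset ℕ :=
  (range (∏ l ∈ pz w, l)).filter (fun r => ∀ l ∈ pz w, ¬ l ∣ r % l ∧ ¬ (l : ℤ) ∣ f.eval ((r % l : ℕ) : ℤ) + a)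

lemma RR_card (f : ℤ[X]) (w a : ℕ) :
    (Vz w)⁻¹ * ((#(RR f w a) : ℝ) / (Nat.totient (∏ l ∈ pz w, l) : ℝ)) = sing f w a := by
  classical
  have h1 := crt_card (fun l b => ¬ l ∣ b ∧ ¬ (l : ℤ) ∣ f.eval (b : ℤ) + a) (pz w) (fun p hp => (mem_pz.1 hp).2)
  have hcard : (#(RR f w a) : ℝ) = ∏ l ∈ pz w, (#((range l).filter (fun b : ℕ => ¬ l ∣ b ∧ ¬ (l : ℤ) ∣ f.eval (b : ℤ) + a)) : ℝ) := by
    unfold RR
    rw [h1]
    push_cast
    rfl
  have hφ : (Nat.totient (∏ l ∈ pz w, l) : ℝ) = ∏ l ∈ pz w, ((l : ℝ) - 1) := by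
    rw [totient_prod (pz w) (fun p hp => (mem_pz.1 hp).2), Nat.cast_prod]
    apply prod_congr rfl
    intro l hl
    rw [Nat.cast_sub (mem_pz.1 hl).2.one_le, Nat.cast_one]
  rw [hcard, hφ, ← prod_div_distrib]
  unfold sing Vz
  rw [← prod_inv_distrib, ← prod_mul_distrib]
  apply prod_congr rfl
  intro l hl
  have hlp : l.Prime := (mem_pz.1 hl).2
  have hl2 : (2 : ℝ) ≤ l := by exact_mod_cast hlp.two_le
  have h2 : #((range l).filter (fun b : ℕ => ¬ l ∣ b ∧ ¬ (l : ℤ) ∣ f.eval (b : ℤ) + a)) + zer f a l = l := by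
    unfold zer
    have h3 := card_filter_add_card_filter_not (s := range l) (fun b : ℕ => (l : ℤ) ∣ (b : ℤ) * (f.eval (b : ℤ) + a))
    rw [card_range] at h3
    have h4 : (range l).filter (fun b : ℕ => ¬ l ∣ b ∧ ¬ (l : ℤ) ∣ f.eval (b : ℤ) + a) =
        (range l).filter (fun b : ℕ => ¬ (l : ℤ) ∣ (b : ℤ) * (f.eval (b : ℤ) + a)) := by
      apply filter_congr
      intro b _
      rw [(Nat.prime_iff_prime_int.1 hlp).dvd_mul, not_or, Int.natCast_dvd_natCast]
    rw [h4]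
    omega
  have h5 : (#((range l).filter (fun b : ℕ => ¬ l ∣ b ∧ ¬ (l : ℤ) ∣ f.eval (b : ℤ) + a)) : ℝ) = l - zer f a l := by
    have : ((#((range l).filter (fun b : ℕ => ¬ l ∣ b ∧ ¬ (l : ℤ) ∣ f.eval (b : ℤ) + a)) + zer f a l : ℕ) : ℝ) = l := by
      exact_mod_cast h2
    push_cast at this
    linarith
  rw [h5]
  have h6 : (l : ℝ) - 1 ≠ 0 := by linarith
  have h7 : (l : ℝ) ≠ 0 := by linarith
  have h8 : (1 - 1 / (l : ℝ)) ≠ 0 := by
    have : (1 - 1 / (l : ℝ)) = ((l : ℝ) - 1) / l := by field_simp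
    rw [this]
    exact div_ne_zero h6 h7
  field_simp

lemma rgh_split (f : ℤ[X]) (S : Finset ℕ) (hS : ∀ p ∈ S, p.Prime) (w a : ℕ) :
    (∑ r ∈ RR f w a, (#(S.filter (fun p => p % (∏ l ∈ pz w, l) = r)) : ℝ)) ≤ rgh f S w a ∧
    (rgh f S w a : ℝ) ≤ (∑ r ∈ RR f w a, (#(S.filter (fun p => p % (∏ l ∈ pz w, l) = r)) : ℝ)) + w := by
  classical
  obtain ⟨W, hW⟩ : ∃ W : ℕ, W = ∏ l ∈ pz w, l := ⟨_, rfl⟩
  have hW0 : 0 < W := by rw [hW]; exact prod_pos fun l hl => (mem_pz.1 hl).2.pos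
  have hlW : ∀ l ∈ pz w, l ∣ W := fun l hl => by rw [hW]; exact dvd_prod_of_mem _ hl
  rw [← hW]
  have hdis : (∑ r ∈ RR f w a, (#(S.filter (fun p => p % W = r)) : ℝ)) =
      (#((RR f w a).biUnion (fun r => S.filter (fun p => p % W = r))) : ℝ) := by
    rw [card_biUnion]
    · push_cast
      rfl
    · intro r _ r' _ hrr
      rw [Function.onFun, disjoint_left]
      intro p h1 h2
      exact hrr ((mem_filter.1 h1).2.symm.trans (mem_filter.1 h2).2)
  rw [hdis]
  unfold rgh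
  constructor
  · have : (RR f w a).biUnion (fun r => S.filter (fun p => p % W = r)) ⊆
        S.filter (fun p : ℕ => ∀ l ∈ primes w, ¬ (l : ℤ) ∣ f.eval (p : ℤ) + a) := by
      intro p hp
      rw [mem_biUnion] at hp
      obtain ⟨r, hr, hp⟩ := hp
      rw [mem_filter] at hp ⊢
      refine ⟨hp.1, fun l hl => ?_⟩
      unfold RR at hr
      rw [mem_filter] at hr
      have h1 := (hr.2 l hl).2
      rw [← hp.2, Nat.mod_mod_of_dvd p (hlW l hl), per'] at h1
      exact h1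
    exact_mod_cast card_le_card this
  · have : S.filter (fun p : ℕ => ∀ l ∈ primes w, ¬ (l : ℤ) ∣ f.eval (p : ℤ) + a) ⊆
        (RR f w a).biUnion (fun r => S.filter (fun p => p % W = r)) ∪ Icc 1 w := by
      intro p hp
      rw [mem_filter] at hp
      rw [mem_union, mem_biUnion, mem_Icc]
      rcases Nat.lt_or_ge w p with h | h
      · left
        refine ⟨p % W, ?_, mem_filter.2 ⟨hp.1, rfl⟩⟩
        unfold RR
        rw [mem_filter, mem_range, ← hW]
        refine ⟨Nat.mod_lt _ hW0, fun l hl => ?_⟩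
        rw [Nat.mod_mod_of_dvd p (hlW l hl)]
        refine ⟨fun hd => ?_, fun hd => hp.2 l hl ((per' f a l p).1 hd)⟩
        have h1 : l ∣ p := (Nat.dvd_mod_iff dvd_rfl).1 hd
        have h2 := (Nat.prime_dvd_prime_iff_eq (mem_pz.1 hl).2 (hS p hp.1)).1 h1
        have h3 := (mem_pz.1 hl).1
        omega
      · exact Or.inr ⟨(hS p hp.1).one_le, h⟩
    have h2 := (card_le_card this).trans (card_union_le _ _)
    rw [Nat.card_Icc, Nat.add_sub_cancel] at h2
    exact_mod_cast h2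

theorem part3a (f : ℤ[X]) (hd : 1 ≤ f.natDegree) (hl : 0 < f.leadingCoeff) (B : ℕ) (hB : 1 ≤ B) (ε : ℝ) (hε : 0 < ε)
    (hε1 : ε ≤ 1) :
    ∃ w0 : ℕ, ∀ w : ℕ, w0 ≤ w → ∀ (Pp : Set ℕ) (ρ : ℝ), Equi Pp ρ → ∃ x0 : ℕ, ∀ x : ℕ, x0 ≤ x → ∀ N : ℕ,
      N ≤ B * x ^ f.natDegree → x ^ f.natDegree ≤ B * N →
      ∃ Bad ⊆ Icc 1 N, (#Bad : ℝ) ≤ ε * N ∧ ∀ a ∈ Icc 1 N, a ∉ Bad →
        |(cnt f (upto Pp x) a : ℝ) - ρ * sing f w a * (x / (f.natDegree * Real.log x ^ 2))| ≤ ε * (x / Real.log x ^ 2) := by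
  classical
  obtain ⟨w0, h0⟩ := part2a f hd hl B hB (ε / 2) (by positivity) (by linarith)
  refine ⟨w0, fun w hw Pp ρ hP => ?_⟩
  obtain ⟨n1, h1⟩ := h0 w hw
  obtain ⟨W, hW⟩ : ∃ W : ℕ, W = ∏ l ∈ pz w, l := ⟨_, rfl⟩
  have hW0 : 0 < W := by rw [hW]; exact prod_pos fun l hl => (mem_pz.1 hl).2.pos
  obtain ⟨V, hV⟩ : ∃ V : ℝ, V = (Vz w)⁻¹ := ⟨_, rfl⟩
  have hV0 : 0 < V := by rw [hV]; exact inv_pos.2 (Vz_pos w)
  obtain ⟨η, hη⟩ : ∃ η : ℝ, η = ε / (4 * V) := ⟨_, rfl⟩
  have hη0 : 0 < η := by rw [hη]; positivity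
  -- all classes at once
  have hcl : ∀ᶠ x : ℕ in atTop, ∀ r ∈ (range W).filter (fun r => Nat.Coprime r W),
      |(#((upto Pp x).filter (fun p => p % W = r % W)) : ℝ) / (x / Real.log x) - ρ / Nat.totient W| ≤ η / W := by
    rw [Filter.eventually_all_finset]
    intro r hr
    have h2 := hP W r hW0 (mem_filter.1 hr).2
    have h3 := (Metric.tendsto_nhds.1 h2) (η / W) (by positivity)
    filter_upwards [h3] with x hx
    rw [Real.dist_eq] at hx
    exact hx.le
  obtain ⟨n2, h2⟩ := eventually_atTop.1 hcl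
  obtain ⟨n3, h3⟩ := ev_L' 1
  obtain ⟨n4, h4⟩ := ev_log' 1 (w / η)
  refine ⟨n1 + n2 + n3 + n4 + 2, fun x hx N hN1 hN2 => ?_⟩
  obtain ⟨Bad, g1, g2, g3⟩ := h1 x (by omega) N hN1 hN2 (upto Pp x) (by unfold upto; exact filter_subset _ _)
  have c2 := h2 x (by omega)
  have c3 := h3 x (by omega)
  have c4 := h4 x (by omega)
  refine ⟨Bad, g1, g2.trans (by nlinarith [Nat.cast_nonneg (α := ℝ) N]), fun a ha haB => ?_⟩
  have g4 := g3 a ha haB
  have hsp := rgh_split f (upto Pp x) (fun p hp => (mem_pz.1 (mem_filter.1 hp).1).2) w a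
  rw [← hW] at hsp
  have hR := RR_card f w a
  rw [← hW, ← hV] at hR
  have hRW : (#(RR f w a) : ℝ) ≤ W := by
    have : #(RR f w a) ≤ W := by
      unfold RR
      refine (card_filter_le _ _).trans ?_
      rw [card_range, hW]
    exact_mod_cast this
  have hx0 : (0 : ℝ) < x := by exact_mod_cast (by omega : 0 < x)
  have hcls : ∀ r ∈ RR f w a, |(#((upto Pp x).filter (fun p => p % W = r)) : ℝ) - ρ / Nat.totient W * (x / Real.log x)| ≤
      η / W * (x / Real.log x) := by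
    intro r hr
    have hrR : r ∈ (range W).filter (fun r => Nat.Coprime r W) := by
      unfold RR at hr
      rw [mem_filter, mem_range, ← hW] at hr
      rw [mem_filter, mem_range]
      refine ⟨hr.1, ?_⟩
      rw [hW]
      apply Nat.Coprime.prod_right
      intro l hl
      rw [Nat.coprime_comm, (mem_pz.1 hl).2.coprime_iff_not_dvd]
      intro hd
      exact (hr.2 l hl).1 ((Nat.dvd_mod_iff dvd_rfl).2 hd)
    have h5 := c2 r hrR
    rw [Nat.mod_eq_of_lt (mem_range.1 (mem_filter.1 hrR).1)] at h5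
    have hxL : 0 < (x : ℝ) / Real.log x := by positivity
    have h6 := mul_le_mul_of_nonneg_right h5 hxL.le
    rw [← abs_of_pos hxL, ← abs_mul, abs_of_pos hxL, sub_mul, div_mul_cancel₀ _ hxL.ne'] at h6
    exact h6
  have hsum : |(∑ r ∈ RR f w a, (#((upto Pp x).filter (fun p => p % W = r)) : ℝ)) -
      #(RR f w a) * (ρ / Nat.totient W * (x / Real.log x))| ≤ η * (x / Real.log x) := by
    rw [← nsmul_eq_mul, ← sum_const, ← sum_sub_distrib]
    refine (abs_sum_le_sum_abs _ _).trans ((sum_le_sum hcls).trans ?_)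
    rw [sum_const, nsmul_eq_mul]
    have hWr : (0 : ℝ) < W := by exact_mod_cast hW0
    calc (#(RR f w a) : ℝ) * (η / W * (x / Real.log x)) ≤ W * (η / W * (x / Real.log x)) :=
          mul_le_mul_of_nonneg_right hRW (by positivity)
      _ = _ := by field_simp
  have hφ0 : (0 : ℝ) < Nat.totient W := by exact_mod_cast Nat.totient_pos.2 hW0
  have e1 : V * (#(RR f w a) * (ρ / Nat.totient W * (x / Real.log x))) = ρ * sing f w a * (x / Real.log x) := by
    rw [← hR]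
    ring
  rw [← hV] at g4
  generalize Real.log (x : ℝ) = L at *
  have hL0 : 0 < L := by linarith
  have hxL : 0 < (x : ℝ) / L := by positivity
  have hw1 : (w : ℝ) ≤ η * (x / L) := by
    have t1 : √(x : ℝ) ≤ x := by
      rw [Real.sqrt_le_left hx0.le]
      have : (1 : ℝ) ≤ x := by exact_mod_cast (by omega : 1 ≤ x)
      nlinarith
    have t2 := c4.trans t1
    rw [pow_one, div_mul_eq_mul_div, div_le_iff₀ hη0] at t2
    rw [mul_div_assoc', le_div_iff₀ hL0]
    linarith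
  have e2 : |V * rgh f (upto Pp x) w a - ρ * sing f w a * (x / L)| ≤ (ε / 2) * (x / L) := by
    rw [← e1, ← mul_sub, abs_mul, abs_of_pos hV0]
    have t3 : |(rgh f (upto Pp x) w a : ℝ) - #(RR f w a) * (ρ / Nat.totient W * (x / L))| ≤ 2 * η * (x / L) := by
      have u := abs_le.1 hsum
      rw [abs_le]
      constructor <;> linarith [u.1, u.2, hsp.1, hsp.2]
    calc V * |(rgh f (upto Pp x) w a : ℝ) - #(RR f w a) * (ρ / Nat.totient W * (x / L))| ≤ V * (2 * η * (x / L)) :=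
          mul_le_mul_of_nonneg_left t3 hV0.le
      _ = _ := by
          rw [hη]
          field_simp
          ring
  have hdr : (1 : ℝ) ≤ f.natDegree := by exact_mod_cast hd
  have e3 : |(f.natDegree * L) * ((cnt f (upto Pp x) a : ℝ) - ρ * sing f w a * (x / (f.natDegree * L ^ 2)))| ≤ ε * (x / L) := by
    have e4 : (f.natDegree * L) * ((cnt f (upto Pp x) a : ℝ) - ρ * sing f w a * (x / (f.natDegree * L ^ 2))) =
        (f.natDegree * L * cnt f (upto Pp x) a - V * rgh f (upto Pp x) w a) +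
        (V * rgh f (upto Pp x) w a - ρ * sing f w a * (x / L)) := by
      field_simp
      ring
    rw [e4]
    refine (abs_add_le _ _).trans ((add_le_add g4 e2).trans (le_of_eq ?_))
    ring
  rw [abs_mul, abs_of_pos (by positivity : (0 : ℝ) < f.natDegree * L)] at e3
  have e5 : |(cnt f (upto Pp x) a : ℝ) - ρ * sing f w a * (x / (f.natDegree * L ^ 2))| ≤ ε * (x / L) / (f.natDegree * L) := by
    rw [le_div_iff₀ (by positivity)]
    linarith
  refine e5.trans ?_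
  rw [div_le_iff₀ (by positivity)]
  have e6 : ε * (x / L ^ 2) * (f.natDegree * L) = f.natDegree * (ε * (x / L)) := by
    field_simp
  rw [e6]
  have : 0 ≤ ε * (x / L) := by positivity
  nlinarith

end Pool.Agent.H27.AS
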