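import Mathlib
import Pool.Agent.H27.AS.J

/-!
# Dense sets of primes: a positive proportion of the constants
-/

set_option autoImplicit false

namespace Pool.Agent.H27.AS
open Finset Polynomial Pool.Agent.H373R2.T7

lemma second (f : ℤ[X]) (n0 : ℕ) (hn0 : ∀ n : ℕ, n0 ≤ n → 1 ≤ f.eval (n : ℤ)) (x N w1 w : ℕ)
    (hww : w1 ≤ w) (e0 : ℝ)
    (hpair : ∀ w1 w2 : ℕ, 1 ≤ w1 → w1 ≤ w → 1 ≤ w2 → w2 ≤ w → ∀ M M' : ℕ,
      |∑ a ∈ Icc 1 N, lamz w1 (M + a) * lamz w2 (M' + a) - N * Cor (min w1 w2) ((M : ℤ) - M')| ≤ e0)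
    (hw : 1 ≤ w1) (T : ℝ) (havg : ∀ m : ℤ, ∑ p ∈ pz x, (gw f m (lz w1 w) p - 1) ≤ T)
    (S : Finset ℕ) (hS : S ⊆ pz x) (hS0 : ∀ p ∈ S, n0 ≤ p) :
    ∑ a ∈ Icc 1 N, (∑ p ∈ S, lamz w (Mf f p + a)) ^ 2 ≤
      N * ((Vz w1)⁻¹ * (#(pz x) * (#(pz x) + T))) + e0 * (#(pz x)) ^ 2 := by
  classical
  have hw0 : 1 ≤ w := hw.trans hww
  have e1 : ∑ a ∈ Icc 1 N, (∑ p ∈ S, lamz w (Mf f p + a)) ^ 2 = ∑ p' ∈ S, ∑ p ∈ S,
      ∑ a ∈ Icc 1 N, lamz w (Mf f p + a) * lamz w (Mf f p' + a) := by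
    simp only [pow_two, sum_mul_sum]
    rw [sum_comm, sum_comm (s := S) (t := S)]
    apply sum_congr rfl
    intro p _
    rw [sum_comm]
  have hM : ∀ p ∈ S, ((Mf f p : ℕ) : ℤ) = f.eval (p : ℤ) := by
    intro p hp
    unfold Mf
    exact Int.toNat_of_nonneg (by have := hn0 p (hS0 p hp); omega)
  have e2 : ∀ p' ∈ S, ∀ p ∈ S, ∑ a ∈ Icc 1 N, lamz w (Mf f p + a) * lamz w (Mf f p' + a) ≤
      N * ((Vz w1)⁻¹ * (1 + (gw f (f.eval (p' : ℤ)) (lz w1 w) p - 1))) + e0 := by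
    intro p' hp' p hp
    have a1 := hpair w w hw0 le_rfl hw0 le_rfl (Mf f p) (Mf f p')
    rw [min_self, hM p hp, hM p' hp', abs_le] at a1
    have hc := Cor_diff f (f.eval (p' : ℤ)) w1 w p hww
    have hb := (Cor_bd w1 (f.eval (p : ℤ) - f.eval (p' : ℤ))).2
    have hc' : Cor w (f.eval (p : ℤ) - f.eval (p' : ℤ)) ≤ (Vz w1)⁻¹ * (1 + (gw f (f.eval (p' : ℤ)) (lz w1 w) p - 1)) := by
      linarith
    have := mul_le_mul_of_nonneg_left hc' (Nat.cast_nonneg (α := ℝ) N)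
    linarith [a1.2]
  have he0 : 0 ≤ e0 := (abs_nonneg _).trans (hpair w w hw0 le_rfl hw0 le_rfl 0 0)
  have hV := (inv_pos.2 (Vz_pos w1)).le
  have hSc : (#S : ℝ) ≤ #(pz x) := by exact_mod_cast card_le_card hS
  have hT : 0 ≤ T := by
    refine le_trans ?_ (havg 0)
    exact sum_nonneg fun p _ => by linarith [gw_one_le f 0 w1 w p]
  rw [e1]
  calc _ ≤ ∑ p' ∈ S, ∑ p ∈ S, (N * ((Vz w1)⁻¹ * (1 + (gw f (f.eval (p' : ℤ)) (lz w1 w) p - 1))) + e0) :=
        sum_le_sum fun p' hp' => sum_le_sum fun p hp => e2 p' hp' p hp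
    _ = ∑ p' ∈ S, (N * ((Vz w1)⁻¹ * (#S + ∑ p ∈ S, (gw f (f.eval (p' : ℤ)) (lz w1 w) p - 1))) + #S * e0) := by
        apply sum_congr rfl
        intro p' _
        rw [sum_add_distrib, sum_const, nsmul_eq_mul, ← mul_sum, ← mul_sum, sum_add_distrib, sum_const, nsmul_eq_mul, mul_one]
    _ ≤ ∑ p' ∈ S, (N * ((Vz w1)⁻¹ * (#(pz x) + T)) + #(pz x) * e0) := by
        apply sum_le_sum
        intro p' _
        have h5 : ∑ p ∈ S, (gw f (f.eval (p' : ℤ)) (lz w1 w) p - 1) ≤ T := by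
          refine le_trans ?_ (havg (f.eval (p' : ℤ)))
          apply sum_le_sum_of_subset_of_nonneg hS
          intro p _ _
          linarith [gw_one_le f (f.eval (p' : ℤ)) w1 w p]
        have h6 := mul_le_mul_of_nonneg_left (mul_le_mul_of_nonneg_left (add_le_add hSc h5) hV) (Nat.cast_nonneg (α := ℝ) N)
        have h7 := mul_le_mul_of_nonneg_right hSc he0
        linarith
    _ = #S * (N * ((Vz w1)⁻¹ * (#(pz x) + T)) + #(pz x) * e0) := by rw [sum_const, nsmul_eq_mul]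
    _ ≤ #(pz x) * (N * ((Vz w1)⁻¹ * (#(pz x) + T)) + #(pz x) * e0) :=
        mul_le_mul_of_nonneg_right hSc (by positivity)
    _ = _ := by ring

lemma Cor_one (h : ℤ) : Cor 1 h = 1 := by
  unfold Cor
  have : pz 1 = ∅ := by
    ext l
    rw [mem_pz]
    constructor
    · rintro ⟨h1, h2⟩
      have := h2.two_le
      omega
    · intro h
      simp at h
  rw [this, prod_empty]

lemma lamz_one (n : ℕ) : lamz 1 n = 1 := by
  have h : pz 1 = ∅ := by
    ext l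
    rw [mem_pz]
    constructor
    · rintro ⟨h1, h2⟩
      have := h2.two_le
      omega
    · intro h
      simp at h
  unfold lamz Vz
  rw [h]
  simp

/-- the inequality of Paley and Zygmund -/
lemma pz_ineq (s : Finset ℕ) (X : ℕ → ℝ) (hX : ∀ a ∈ s, 0 ≤ X a) (N t Q : ℝ) (hN : (#s : ℝ) ≤ N) (ht : 0 < t) (hNpos : 0 < N)
    (hQ : 0 < Q) (h1 : 2 * (t * N) ≤ ∑ a ∈ s, X a) (h2 : ∑ a ∈ s, X a ^ 2 ≤ Q * N) :
    t ^ 2 / Q * N ≤ #(s.filter (fun a => t < X a)) := by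
  classical
  have h3 : ∑ a ∈ s, X a ≤ t * N + ∑ a ∈ s.filter (fun a => t < X a), X a := by
    rw [← sum_filter_add_sum_filter_not s (fun a => t < X a), add_comm]
    apply add_le_add _ le_rfl
    calc ∑ a ∈ s.filter (fun a => ¬ t < X a), X a ≤ ∑ _a ∈ s.filter (fun a => ¬ t < X a), t :=
          sum_le_sum fun a ha => not_lt.1 (mem_filter.1 ha).2
      _ = (#(s.filter (fun a => ¬ t < X a)) : ℝ) * t := by rw [sum_const, nsmul_eq_mul]
      _ ≤ N * t := by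
          apply mul_le_mul_of_nonneg_right _ ht.le
          refine le_trans ?_ hN
          exact_mod_cast card_filter_le _ _
      _ = t * N := mul_comm _ _
  have h4 : t * N ≤ ∑ a ∈ s.filter (fun a => t < X a), X a := by linarith
  have h5 : (∑ a ∈ s.filter (fun a => t < X a), X a) ^ 2 ≤ #(s.filter (fun a => t < X a)) * ∑ a ∈ s.filter (fun a => t < X a), X a ^ 2 :=
    sq_sum_le_card_mul_sum_sq
  have h6 : ∑ a ∈ s.filter (fun a => t < X a), X a ^ 2 ≤ Q * N :=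
    (sum_le_sum_of_subset_of_nonneg (filter_subset _ _) (fun a _ _ => sq_nonneg _)).trans h2
  have h7 : (t * N) ^ 2 ≤ #(s.filter (fun a => t < X a)) * (Q * N) :=
    (pow_le_pow_left₀ (by positivity) h4 2).trans (h5.trans (mul_le_mul_of_nonneg_left h6 (Nat.cast_nonneg _)))
  rw [div_mul_eq_mul_div, div_le_iff₀ hQ]
  have h8 : t ^ 2 * N * N ≤ (#(s.filter (fun a => t < X a)) * Q) * N := by
    calc t ^ 2 * N * N = (t * N) ^ 2 := by ring
      _ ≤ _ := h7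
      _ = _ := by ring
  exact le_of_mul_le_mul_right h8 hNpos

theorem part4 (f : ℤ[X]) (hd : 1 ≤ f.natDegree) (hl : 0 < f.leadingCoeff) (B : ℕ) (hB : 1 ≤ B) (δ : ℝ) (hδ : 0 < δ) :
    ∃ c : ℝ, 0 < c ∧ ∃ x0 : ℕ, ∀ x : ℕ, x0 ≤ x → ∀ N : ℕ, N ≤ B * x ^ f.natDegree →
      x ^ f.natDegree ≤ B * N → ∀ S : Finset ℕ, S ⊆ pz x → δ * (x / Real.log x) ≤ #S →
      c * N ≤ #((Icc 1 N).filter (fun a => c * (x / Real.log x ^ 2) ≤ cnt f S a)) := by
  classical
  obtain ⟨n0, hn0, -⟩ := ev_two f hd hl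
  obtain ⟨w1, hw1⟩ : ∃ w1 : ℕ, w1 = 4 * cc f + 2 := ⟨_, rfl⟩
  obtain ⟨V1, hV1⟩ : ∃ V1 : ℝ, V1 = (Vz w1)⁻¹ := ⟨_, rfl⟩
  have hV10 : 0 < V1 := by rw [hV1]; exact inv_pos.2 (Vz_pos w1)
  obtain ⟨C2, hC2⟩ : ∃ C2 : ℝ, C2 = 15576 * V1 + 15488 := ⟨_, rfl⟩
  have hC20 : 0 < C2 := by rw [hC2]; positivity
  obtain ⟨c1, hc1⟩ : ∃ c1 : ℝ, c1 = (δ / 8) ^ 2 / C2 := ⟨_, rfl⟩
  have hc10 : 0 < c1 := by rw [hc1]; positivity
  obtain ⟨ε, hε⟩ : ∃ ε : ℝ, ε = min (min (c1 / 2) (δ / 16)) 1 := ⟨_, rfl⟩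
  have hε0 : 0 < ε := by rw [hε]; positivity
  have hε1 : ε ≤ 1 := by rw [hε]; exact min_le_right _ _
  have hε2 : ε ≤ c1 / 2 := by rw [hε]; exact (min_le_left _ _).trans (min_le_left _ _)
  have hε3 : ε ≤ δ / 16 := by rw [hε]; exact (min_le_left _ _).trans (min_le_right _ _)
  obtain ⟨w0, h0⟩ := part2a f hd hl B hB ε hε0 hε1
  obtain ⟨w, hw⟩ : ∃ w : ℕ, w = max w0 w1 := ⟨_, rfl⟩
  have hdr : (1 : ℝ) ≤ f.natDegree := by exact_mod_cast hd
  obtain ⟨c, hc⟩ : ∃ c : ℝ, c = min (c1 / 2) (δ / (16 * f.natDegree)) := ⟨_, rfl⟩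
  have hc0 : 0 < c := by rw [hc]; exact lt_min (by positivity) (by positivity)
  obtain ⟨n1, h1⟩ := h0 w (by omega)
  obtain ⟨n2, h2⟩ := avg f hd 1 le_rfl
  obtain ⟨n3, h3⟩ := pair 1 1
  obtain ⟨n4, h4⟩ := size_log f.natDegree B hB
  obtain ⟨n5, h5⟩ := ev_L' (2 * w + 4)
  obtain ⟨n6, h6⟩ := ev_log' 1 (2 * n0 / δ)
  refine ⟨c, hc0, n1 + n2 + B * n3 + n4 + n5 + n6 + 4, fun x hx N hN1 hN2 S hS hSc => ?_⟩
  obtain ⟨S1, hS1⟩ : ∃ S1 : Finset ℕ, S1 = S.filter (fun p => n0 ≤ p) := ⟨_, rfl⟩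
  have hS1p : S1 ⊆ pz x := by rw [hS1]; exact (filter_subset _ _).trans hS
  have hS1n : ∀ p ∈ S1, n0 ≤ p := by rw [hS1]; exact fun p hp => (mem_filter.1 hp).2
  obtain ⟨Bad, g1, g2, g3⟩ := h1 x (by omega) N hN1 hN2 S1 hS1p
  have b5 := h5 x (by omega)
  have b6 := h6 x (by omega)
  have hwr : (0 : ℝ) ≤ w := Nat.cast_nonneg _
  have hav := h2 x (by omega) w1 w (by omega) (by rw [pow_one]; linarith)
  obtain ⟨d1, d2, d3⟩ := h4 x (by omega) f.natDegree N hd le_rfl hN1 hN2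
  have hNn3 : n3 ≤ N := by
    have : B * n3 ≤ B * N := le_trans (by omega) d3
    exact Nat.le_of_mul_le_mul_left this (by omega)
  have hlogN : 2 ≤ Real.log N := by linarith
  have hNpos : (0 : ℝ) < N := by
    rcases Nat.eq_zero_or_pos N with h | h
    · rw [h, Nat.cast_zero, Real.log_zero] at hlogN
      linarith
    · exact_mod_cast h
  have hp := fun w1 w2 a1 a2 a3 a4 M M' => h3 N hNn3 w (by omega) (by rw [pow_one]; linarith) w1 w2 a1 a2 a3 a4 M M'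
  have hx0 : (0 : ℝ) < x := by exact_mod_cast (by omega : 0 < x)
  have hcard := card_pz_up x (by omega)
  have hsec := second f n0 hn0 x N w1 w (by omega) (N / Real.log N ^ 1) hp (by omega) _ hav S1 hS1p hS1n
  -- first moment
  have hfirst : ∀ p ∈ S1, (N : ℝ) / 2 ≤ ∑ a ∈ Icc 1 N, lamz w (Mf f p + a) := by
    intro p _
    have q := hp w 1 (by omega) le_rfl le_rfl (by omega) (Mf f p) 0
    rw [min_eq_right (by omega), Cor_one, mul_one, abs_le] at q
    have q2 : ∑ a ∈ Icc 1 N, lamz w (Mf f p + a) * lamz 1 (0 + a) = ∑ a ∈ Icc 1 N, lamz w (Mf f p + a) := by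
      apply sum_congr rfl
      intro a _
      rw [lamz_one, mul_one]
    rw [q2, pow_one] at q
    have q3 : (N : ℝ) / Real.log N ≤ N / 2 := div_le_div_of_nonneg_left hNpos.le (by norm_num) hlogN
    linarith [q.1]
  have hS1c : (δ / 2) * (x / Real.log x) ≤ #S1 := by
    have q := drop_small n0 S (fun _ => True) (fun p hp => (mem_pz.1 (hS hp)).2.one_le)
    rw [filter_true, filter_true, ← hS1] at q
    have t1 : √(x : ℝ) ≤ x := by
      rw [Real.sqrt_le_left hx0.le]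
      have : (1 : ℝ) ≤ x := by exact_mod_cast (by omega : 1 ≤ x)
      nlinarith
    have t2 := b6.trans t1
    rw [pow_one, div_mul_eq_mul_div, div_le_iff₀ hδ] at t2
    have t3 : (n0 : ℝ) ≤ (δ / 2) * (x / Real.log x) := by
      rw [mul_div_assoc', le_div_iff₀ (by linarith)]
      linarith
    linarith [q.2]
  have hfm : 2 * ((δ / 8) * (x / Real.log x) * N) ≤ ∑ a ∈ Icc 1 N, ∑ p ∈ S1, lamz w (Mf f p + a) := by
    rw [sum_comm]
    calc 2 * ((δ / 8) * (x / Real.log x) * N) = ((δ / 2) * (x / Real.log x)) * (N / 2) := by ring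
      _ ≤ #S1 * (N / 2) := mul_le_mul_of_nonneg_right hS1c (by positivity)
      _ = ∑ _p ∈ S1, (N : ℝ) / 2 := by rw [sum_const, nsmul_eq_mul]
      _ ≤ _ := sum_le_sum hfirst
  have hcnt1 : ∀ a, (cnt f S1 a : ℝ) ≤ cnt f S a := by
    intro a
    have := (drop_small n0 S (fun p : ℕ => (f.eval (p : ℤ) + a).toNat.Prime) (fun p hp => (mem_pz.1 (hS hp)).2.one_le)).1
    rw [← hS1] at this
    exact this
  rw [← hV1] at hsec
  generalize hLx : Real.log (x : ℝ) = L at *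
  have hL0 : 0 < L := by linarith
  have hxL : 0 < x / L := by positivity
  have hpz0 : (0 : ℝ) ≤ #(pz x) := Nat.cast_nonneg _
  have hT : 352 * cc f / w1 * (x / L) + x / L ^ 2 ≤ 89 * (x / L) := by
    have hw1r : (0 : ℝ) < w1 := by exact_mod_cast (by omega : 0 < w1)
    have t1 : 352 * (cc f : ℝ) / w1 ≤ 88 := by
      rw [div_le_iff₀ hw1r, hw1]
      push_cast
      linarith
    have t2 : x / L ^ 2 ≤ 1 * (x / L) := by
      rw [one_mul]
      apply div_le_div_of_nonneg_left hx0.le hL0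
      nlinarith
    have t3 := mul_le_mul_of_nonneg_right t1 hxL.le
    linarith
  have hsec2 : ∑ a ∈ Icc 1 N, (∑ p ∈ S1, lamz w (Mf f p + a)) ^ 2 ≤ (C2 * (x / L) ^ 2) * N := by
    refine hsec.trans ?_
    have t1 : (N : ℝ) / Real.log N ^ 1 ≤ N * 2 := by
      rw [pow_one, div_le_iff₀ (by linarith)]
      nlinarith
    have t2 : (#(pz x) : ℝ) ^ 2 ≤ (88 * x / L) ^ 2 := pow_le_pow_left₀ hpz0 hcard 2
    have t3 : (#(pz x) : ℝ) + (352 * cc f / w1 * (x / L) + x / L ^ 2) ≤ 177 * (x / L) := by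
      have : 88 * x / L = 88 * (x / L) := by ring
      linarith
    have t4 : (#(pz x) : ℝ) * ((#(pz x) : ℝ) + (352 * cc f / w1 * (x / L) + x / L ^ 2)) ≤ (88 * x / L) * (177 * (x / L)) :=
      mul_le_mul hcard t3 (by positivity) (by positivity)
    calc _ ≤ N * (V1 * ((88 * x / L) * (177 * (x / L)))) + (N * 2) * (88 * x / L) ^ 2 := by
          apply add_le_add
          · exact mul_le_mul_of_nonneg_left (mul_le_mul_of_nonneg_left t4 hV10.le) hNpos.le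
          · exact mul_le_mul t1 t2 (by positivity) (by positivity)
      _ = (C2 * (x / L) ^ 2) * N := by
          rw [hC2]
          ring
  have hPZ := pz_ineq (Icc 1 N) (fun a => ∑ p ∈ S1, lamz w (Mf f p + a)) (fun a _ => sum_nonneg fun p _ => lamz_nonneg _ _)
    N ((δ / 8) * (x / L)) (C2 * (x / L) ^ 2) (by rw [Nat.card_Icc, Nat.add_sub_cancel]) (by positivity) hNpos (by positivity) hfm hsec2
  have e1 : ((δ / 8) * (x / L)) ^ 2 / (C2 * (x / L) ^ 2) * N = c1 * N := by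
    rw [hc1]
    field_simp
  rw [e1] at hPZ
  have hsub : (Icc 1 N).filter (fun a => (δ / 8) * (x / L) < ∑ p ∈ S1, lamz w (Mf f p + a)) ⊆
      (Icc 1 N).filter (fun a => c * (x / L ^ 2) ≤ cnt f S a) ∪ Bad := by
    intro a ha
    rw [mem_filter] at ha
    rw [mem_union, mem_filter]
    by_cases haB : a ∈ Bad
    · exact Or.inr haB
    · left
      refine ⟨ha.1, ?_⟩
      have q1 := (abs_le.1 (g3 a ha.1 haB)).1
      have q2 := ha.2
      rw [Xw_eq f n0 hn0 S1 hS1n w a] at q2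
      have q3 : ε * (x / L) ≤ (δ / 16) * (x / L) := mul_le_mul_of_nonneg_right hε3 hxL.le
      have q4 : (δ / 16) * (x / L) ≤ f.natDegree * L * cnt f S1 a := by linarith
      have q5 : f.natDegree * L * cnt f S1 a ≤ f.natDegree * L * cnt f S a :=
        mul_le_mul_of_nonneg_left (hcnt1 a) (by positivity)
      have q6 : c * (x / L ^ 2) ≤ δ / (16 * f.natDegree) * (x / L ^ 2) := by
        apply mul_le_mul_of_nonneg_right _ (by positivity)
        rw [hc]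
        exact min_le_right _ _
      refine q6.trans ?_
      have q7 : δ / (16 * f.natDegree) * (x / L ^ 2) * (f.natDegree * L) = (δ / 16) * (x / L) := by
        field_simp
      have q8 : δ / (16 * f.natDegree) * (x / L ^ 2) * (f.natDegree * L) ≤ cnt f S a * (f.natDegree * L) := by
        rw [q7]
        linarith
      exact le_of_mul_le_mul_right q8 (by positivity)
  have hfin := (card_le_card hsub).trans (card_union_le _ _)
  have hfin' : (#((Icc 1 N).filter (fun a => (δ / 8) * (x / L) < ∑ p ∈ S1, lamz w (Mf f p + a))) : ℝ) ≤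
      #((Icc 1 N).filter (fun a => c * (x / L ^ 2) ≤ cnt f S a)) + #Bad := by exact_mod_cast hfin
  have q9 : ε * N ≤ (c1 / 2) * N := mul_le_mul_of_nonneg_right hε2 hNpos.le
  have q10 : c * N ≤ (c1 / 2) * N := by
    apply mul_le_mul_of_nonneg_right _ hNpos.le
    rw [hc]
    exact min_le_left _ _
  linarith

end Pool.Agent.H27.AS
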